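import Pool.Agent.Work.MP_a2bf38_gt.Fu.TFlow

section

/-!
# The second derivative of the logarithm of the determinant of a Hermitian matrix
-/

open scoped ContDiff ENNReal
open Set Finset

namespace Pool.Agent.ToricKRF.G

variable {V : Type*} [NormedAddCommGroup V] [NormedSpace ℝ V]

/-- The directional derivative of a complex function. -/
noncomputable def Dc (w : V) (g : V → ℂ) : V → ℂ := fun p => fderiv ℝ g p w

theorem diffAt_of_contDiffOn' {f : V → ℂ} {U : Set V} (hU : IsOpen U) (hf : ContDiffOn ℝ ∞ f U)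
    {p : V} (hp : p ∈ U) : DifferentiableAt ℝ f p :=
  (hf.differentiableOn (by simp)).differentiableAt (hU.mem_nhds hp)

theorem contDiffOn_Dc {f : V → ℂ} {U : Set V} (hU : IsOpen U) (hf : ContDiffOn ℝ ∞ f U) (w : V) :
    ContDiffOn ℝ ∞ (Dc w f) U := by
  have h1 : ContDiffOn ℝ ∞ (fderiv ℝ f) U :=
    ((contDiffOn_infty_iff_fderiv_of_isOpen hU).1 hf).2
  exact h1.clm_apply contDiffOn_const

theorem Dc_congr {f g : V → ℂ} {U : Set V} (hU : IsOpen U) (h : EqOn f g U) (w : V) :
    EqOn (Dc w f) (Dc w g) U := by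
  intro p hp
  have : f =ᶠ[nhds p] g := Filter.eventuallyEq_of_mem (hU.mem_nhds hp) h
  simp only [Dc]
  rw [this.fderiv_eq]

theorem Dc_add {f g : V → ℂ} {p : V} (hf : DifferentiableAt ℝ f p) (hg : DifferentiableAt ℝ g p)
    (w : V) : Dc w (fun q => f q + g q) p = Dc w f p + Dc w g p := by
  simp only [Dc]
  rw [fderiv_fun_add hf hg]
  simp

theorem Dc_mul {f g : V → ℂ} {p : V} (hf : DifferentiableAt ℝ f p) (hg : DifferentiableAt ℝ g p)
    (w : V) : Dc w (fun q => f q * g q) p = f p * Dc w g p + g p * Dc w f p := by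
  simp only [Dc]
  rw [fderiv_fun_mul hf hg]
  simp

theorem Dc_const_mul {f : V → ℂ} {p : V} (c : ℂ) (hf : DifferentiableAt ℝ f p) (w : V) :
    Dc w (fun q => c * f q) p = c * Dc w f p := by
  simp only [Dc]
  rw [fderiv_const_mul hf c]
  simp

theorem Dc_const (c : ℂ) (w : V) (p : V) : Dc w (fun _ : V => c) p = 0 := by
  simp [Dc]

theorem Dc_sum {κ : Type*} (s : Finset κ) {f : κ → V → ℂ} {p : V}
    (hf : ∀ k ∈ s, DifferentiableAt ℝ (f k) p) (w : V) :
    Dc w (fun q => ∑ k ∈ s, f k q) p = ∑ k ∈ s, Dc w (f k) p := by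
  simp only [Dc]
  rw [fderiv_fun_sum hf]
  simp

theorem Dc_re {f : V → ℂ} {p : V} (hf : DifferentiableAt ℝ f p) (w : V) :
    D w (fun q => (f q).re) p = (Dc w f p).re := by
  have h := (Complex.reCLM.hasFDerivAt.comp p hf.hasFDerivAt).fderiv
  have h2 : (fun q => (f q).re) = Complex.reCLM ∘ f := rfl
  simp only [D, Dc]
  rw [h2, h]
  simp

theorem Dc_im {f : V → ℂ} {p : V} (hf : DifferentiableAt ℝ f p) (w : V) :
    D w (fun q => (f q).im) p = (Dc w f p).im := by
  have h := (Complex.imCLM.hasFDerivAt.comp p hf.hasFDerivAt).fderiv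
  have h2 : (fun q => (f q).im) = Complex.imCLM ∘ f := rfl
  simp only [D, Dc]
  rw [h2, h]
  simp

theorem Dc_conj {f : V → ℂ} {p : V} (hf : DifferentiableAt ℝ f p) (w : V) :
    Dc w (fun q => (starRingEnd ℂ) (f q)) p = (starRingEnd ℂ) (Dc w f p) := by
  have h := (Complex.conjCLE.toContinuousLinearMap.hasFDerivAt.comp p hf.hasFDerivAt).fderiv
  have h2 : (fun q => (starRingEnd ℂ) (f q)) = Complex.conjCLE.toContinuousLinearMap ∘ f := rfl
  simp only [Dc]
  rw [h2, h]
  simp

theorem Dc_prod {m : ℕ} {f : Fin m → V → ℂ} {p : V}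
    (hf : ∀ k, DifferentiableAt ℝ (f k) p) (w : V) :
    Dc w (fun q => ∏ k, f k q) p = ∑ i, (∏ j ∈ univ.erase i, f j p) * Dc w (f i) p := by
  simp only [Dc]
  rw [fderiv_finsetProd fun i _ => hf i]
  simp

section det

variable {m : ℕ} {M : V → Matrix (Fin m) (Fin m) ℂ} {p : V}

theorem diffAt_prod (hM : ∀ i j, DifferentiableAt ℝ (fun q => M q i j) p)
    (σ : Equiv.Perm (Fin m)) : DifferentiableAt ℝ (fun q => ∏ i, M q (σ i) i) p :=
  (HasFDerivAt.finsetProd (u := Finset.univ) (g := fun i q => M q (σ i) i)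
    fun i _ => (hM (σ i) i).hasFDerivAt).differentiableAt

theorem diffAt_det (hM : ∀ i j, DifferentiableAt ℝ (fun q => M q i j) p) :
    DifferentiableAt ℝ (fun q => (M q).det) p := by
  simp_rw [Matrix.det_apply']
  exact DifferentiableAt.fun_sum fun σ _ => (diffAt_prod hM σ).const_mul _

theorem contDiffOn_det {U : Set V} (hM : ∀ i j, ContDiffOn ℝ ∞ (fun q => M q i j) U) :
    ContDiffOn ℝ ∞ (fun q => (M q).det) U := by
  simp_rw [Matrix.det_apply']
  exact ContDiffOn.sum fun σ _ => contDiffOn_const.mul (contDiffOn_prod fun i _ => hM _ _)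

/-- Jacobi's formula -/
theorem Dc_det (hM : ∀ i j, DifferentiableAt ℝ (fun q => M q i j) p) (w : V) :
    Dc w (fun q => (M q).det) p =
      ∑ i, ∑ j, (M p).adjugate i j * Dc w (fun q => M q j i) p := by
  have h1 : ∀ i, ∑ j, (M p).adjugate i j * Dc w (fun q => M q j i) p =
      ((M p).updateCol i (fun j => Dc w (fun q => M q j i) p)).det := by
    intro i
    rw [← Matrix.cramer_apply, Matrix.cramer_eq_adjugate_mulVec]
    rfl
  simp_rw [h1, Matrix.det_apply']
  rw [Dc_sum, Finset.sum_comm]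
  · refine Finset.sum_congr rfl fun σ _ => ?_
    rw [Dc_const_mul _ (diffAt_prod hM σ), Dc_prod (f := fun i q => M q (σ i) i) fun i => hM _ _,
      Finset.mul_sum]
    refine Finset.sum_congr rfl fun i _ => ?_
    congr 1
    rw [← Finset.mul_prod_erase univ _ (Finset.mem_univ i), Matrix.updateCol_self, mul_comm]
    congr 1
    refine Finset.prod_congr rfl fun j hj => ?_
    rw [Matrix.updateCol_ne (Finset.ne_of_mem_erase hj)]
  · exact fun σ _ => (diffAt_prod hM σ).const_mul _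

theorem diffAt_adjugate (hM : ∀ i j, DifferentiableAt ℝ (fun q => M q i j) p) (i j : Fin m) :
    DifferentiableAt ℝ (fun q => (M q).adjugate i j) p := by
  simp_rw [Matrix.adjugate_apply]
  apply diffAt_det
  intro a b
  by_cases h : a = j
  · subst h
    simp
  · simpa [Matrix.updateRow_ne h] using hM a b

/-- derivative of the adjugate at a point where the matrix is `1` -/
theorem Dc_adjugate (hM : ∀ i j, DifferentiableAt ℝ (fun q => M q i j) p) (h1 : M p = 1) (w : V)
    (i j : Fin m) :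
    Dc w (fun q => (M q).adjugate i j) p =
      (if i = j then Dc w (fun q => (M q).det) p else 0) - Dc w (fun q => M q i j) p := by
  have h2 : (fun q => ∑ k, (M q).adjugate i k * M q k j) =
      fun q => (M q).det * (1 : Matrix (Fin m) (Fin m) ℂ) i j := by
    funext q
    have := congrFun (congrFun (Matrix.adjugate_mul (M q)) i) j
    rw [Matrix.mul_apply] at this
    rw [this]
    rfl
  have h3 : Dc w (fun q => ∑ k, (M q).adjugate i k * M q k j) p =
      Dc w (fun q => (M q).det * (1 : Matrix (Fin m) (Fin m) ℂ) i j) p := by rw [h2]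
  rw [Dc_sum (f := fun k q => (M q).adjugate i k * M q k j) _
    fun k _ => (diffAt_adjugate hM i k).fun_mul (hM k j),
    Dc_mul (f := fun q => (M q).det) (diffAt_det hM) (differentiableAt_const _), Dc_const] at h3
  have h4 : ∀ k, Dc w (fun q => (M q).adjugate i k * M q k j) p =
      (if k = i then Dc w (fun q => M q k j) p else 0) +
        (if k = j then Dc w (fun q => (M q).adjugate i k) p else 0) := by
    intro k
    rw [Dc_mul (f := fun q => (M q).adjugate i k) (g := fun q => M q k j)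
      (diffAt_adjugate hM i k) (hM k j), h1, Matrix.adjugate_one, Matrix.one_apply,
      Matrix.one_apply]
    simp only [ite_mul, one_mul, zero_mul, eq_comm]
  simp_rw [h4] at h3
  rw [Finset.sum_add_distrib, Finset.sum_ite_eq' , Finset.sum_ite_eq'] at h3
  simp only [Finset.mem_univ, if_true, mul_zero, zero_add, Matrix.one_apply, ite_mul, one_mul,
    zero_mul] at h3
  rw [← h3]
  ring

theorem Dc_Dc_det {U : Set V} (hU : IsOpen U) (hM : ∀ i j, ContDiffOn ℝ ∞ (fun q => M q i j) U)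
    (hp : p ∈ U) (h1 : M p = 1) (a b : V) :
    Dc a (Dc b (fun q => (M q).det)) p =
      (∑ i, Dc a (fun q => M q i i) p) * (∑ i, Dc b (fun q => M q i i) p)
        - (∑ i, ∑ j, Dc a (fun q => M q i j) p * Dc b (fun q => M q j i) p)
        + ∑ i, Dc a (Dc b (fun q => M q i i)) p := by
  have hd : ∀ q ∈ U, ∀ i j, DifferentiableAt ℝ (fun q => M q i j) q := fun q hq i j =>
    diffAt_of_contDiffOn' hU (hM i j) hq
  have h2 : EqOn (Dc b (fun q => (M q).det))
      (fun q => ∑ i, ∑ j, (M q).adjugate i j * Dc b (fun q => M q j i) q) U :=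
    fun q hq => Dc_det (hd q hq) b
  have hD : ∀ i j, DifferentiableAt ℝ (Dc b (fun q => M q i j)) p := fun i j =>
    diffAt_of_contDiffOn' hU (contDiffOn_Dc hU (hM i j) b) hp
  have hadj := diffAt_adjugate (hd p hp)
  have hdet : Dc a (fun q => (M q).det) p = ∑ i, Dc a (fun q => M q i i) p := by
    rw [Dc_det (hd p hp), h1, Matrix.adjugate_one]
    refine Finset.sum_congr rfl fun i _ => ?_
    simp [Matrix.one_apply]
  have hAD : ∀ i j, DifferentiableAt ℝ
      (fun q => (M q).adjugate i j * Dc b (fun q => M q j i) q) p := fun i j =>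
    (hadj i j).fun_mul (hD j i)
  rw [Dc_congr hU h2 a hp,
    Dc_sum (f := fun i q => ∑ j, (M q).adjugate i j * Dc b (fun q => M q j i) q) _
      fun i _ => DifferentiableAt.fun_sum fun j _ => hAD i j]
  have h3 : ∀ i, Dc a (fun q => ∑ j, (M q).adjugate i j * Dc b (fun q => M q j i) q) p =
      Dc a (Dc b (fun q => M q i i)) p + (∑ i, Dc a (fun q => M q i i) p) *
        Dc b (fun q => M q i i) p - ∑ j, Dc a (fun q => M q i j) p * Dc b (fun q => M q j i) p := by
    intro i
    rw [Dc_sum (f := fun j q => (M q).adjugate i j * Dc b (fun q => M q j i) q) _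
      fun j _ => hAD i j]
    have h4 : ∀ j, Dc a (fun q => (M q).adjugate i j * Dc b (fun q => M q j i) q) p =
        (if i = j then Dc a (Dc b (fun q => M q j i)) p else 0) +
          (if i = j then (∑ i, Dc a (fun q => M q i i) p) * Dc b (fun q => M q j i) p else 0) -
          Dc a (fun q => M q i j) p * Dc b (fun q => M q j i) p := by
      intro j
      rw [Dc_mul (f := fun q => (M q).adjugate i j) (hadj i j) (hD j i), Dc_adjugate (hd p hp) h1, hdet, h1, Matrix.adjugate_one,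
        Matrix.one_apply]
      split_ifs <;> ring
    simp_rw [h4]
    rw [Finset.sum_sub_distrib, Finset.sum_add_distrib, Finset.sum_ite_eq, Finset.sum_ite_eq]
    simp
  simp_rw [h3]
  rw [Finset.sum_sub_distrib, Finset.sum_add_distrib, ← Finset.mul_sum]
  ring

/-- The second derivative of `log det M` at a point where the Hermitian matrix `M` is `1`. -/
theorem D_D_logdet {U : Set V} (hU : IsOpen U) (hM : ∀ i j, ContDiffOn ℝ ∞ (fun q => M q i j) U)
    (hp : p ∈ U) (h1 : M p = 1) (hh : ∀ q ∈ U, (M q).IsHermitian) (a : V) :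
    D a (D a (fun q => Real.log (M q).det.re)) p =
      (∑ i, D a (D a (fun q => (M q i i).re)) p)
        - ∑ i, ∑ j, Complex.normSq (Dc a (fun q => M q i j) p) := by
  have hd : ∀ q ∈ U, ∀ i j, DifferentiableAt ℝ (fun q => M q i j) q := fun q hq i j =>
    diffAt_of_contDiffOn' hU (hM i j) hq
  have hcd := contDiffOn_det hM
  have hδ : ContDiffAt ℝ 2 (fun q => (M q).det.re) p := by
    have : ContDiffOn ℝ ∞ (fun q => (M q).det.re) U := Complex.reCLM.contDiff.comp_contDiffOn hcd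
    exact (this.contDiffAt (hU.mem_nhds hp)).of_le (WithTop.coe_le_coe.2 le_top)
  have hδ1 : (M p).det.re = 1 := by rw [h1]; simp
  rw [LC.D_D_log a a hδ (by rw [hδ1]; norm_num), hδ1]
  have h2 : EqOn (D a (fun q => (M q).det.re)) (fun q => (Dc a (fun q => (M q).det) q).re) U :=
    fun q hq => Dc_re (diffAt_det (hd q hq)) a
  rw [D_congr hU h2 a hp, Dc_re (diffAt_of_contDiffOn' hU (contDiffOn_Dc hU hcd a) hp),
    Dc_Dc_det hU hM hp h1, h2 hp]
  have hdet : Dc a (fun q => (M q).det) p = ∑ i, Dc a (fun q => M q i i) p := by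
    rw [Dc_det (hd p hp), h1, Matrix.adjugate_one]
    refine Finset.sum_congr rfl fun i _ => ?_
    simp [Matrix.one_apply]
  -- the trace is real
  have him : (∑ i, Dc a (fun q => M q i i) p).im = 0 := by
    rw [Complex.im_sum]
    refine Finset.sum_eq_zero fun i _ => ?_
    rw [← Dc_im (hd p hp i i)]
    have h3 : EqOn (fun q => (M q i i).im) (fun _ => (0:ℝ)) U := by
      intro q hq
      have := (hh q hq).apply i i
      exact Complex.conj_eq_iff_im.1 this
    rw [D_congr hU h3 a hp, D_const]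
  have hh2 : ∀ i j, Dc a (fun q => M q j i) p = (starRingEnd ℂ) (Dc a (fun q => M q i j) p) := by
    intro i j
    rw [← Dc_conj (hd p hp i j)]
    have h3 : EqOn (fun q => M q j i) (fun q => (starRingEnd ℂ) (M q i j)) U := by
      intro q hq
      exact ((hh q hq).apply j i).symm
    exact Dc_congr hU h3 a hp
  have h5 : ∀ i j, Dc a (fun q => M q i j) p * Dc a (fun q => M q j i) p =
      (Complex.normSq (Dc a (fun q => M q i j) p) : ℂ) := by
    intro i j
    rw [hh2 i j, Complex.mul_conj]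
  have h6 : ∀ i, (Dc a (Dc a (fun q => M q i i)) p).re = D a (D a (fun q => (M q i i).re)) p := by
    intro i
    rw [← Dc_re (diffAt_of_contDiffOn' hU (contDiffOn_Dc hU (hM i i) a) hp)]
    have h3 : EqOn (D a (fun q => (M q i i).re)) (fun q => (Dc a (fun q => M q i i) q).re) U :=
      fun q hq => Dc_re (hd q hq i i) a
    exact (D_congr hU h3 a hp).symm
  simp_rw [h5]
  rw [hdet]
  simp only [Complex.add_re, Complex.sub_re, Complex.mul_re, Complex.re_sum, him, h6,
    Complex.ofReal_re]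
  ring

end det

end Pool.Agent.ToricKRF.G

end

section

/-!
# The evolution inequality `(∂_t - Δ) log |ξ|^2 ≤ 0` for a constant holomorphic vector field
-/

open scoped ContDiff ENNReal ComplexOrder
open Set Finset

namespace Pool.Agent.ToricKRF.G

variable {n : ℕ} {φ : ℝ × Cn n → ℝ} {U : Set (ℝ × Cn n)}

/-- the Hermitian form `g(u, wbar)` as a function of `q` -/
noncomputable def hf (φ : ℝ × Cn n → ℝ) (u w : Cn n) : ℝ × Cn n → ℂ :=
  fun q => ⟨sf φ u w q, sf φ u (J w) q⟩

theorem contDiffOn_sf (hU : IsOpen U) (hφ : ContDiffOn ℝ ∞ φ U) (u w : Cn n) :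
    ContDiffOn ℝ ∞ (sf φ u w) U :=
  ((contDiffOn_D hU (contDiffOn_D hU hφ _) _).add
    (contDiffOn_D hU (contDiffOn_D hU hφ _) _)).div_const _

theorem contDiffOn_mk {V : Type*} [NormedAddCommGroup V] [NormedSpace ℝ V] {x y : V → ℝ}
    {U : Set V} (hx : ContDiffOn ℝ ∞ x U) (hy : ContDiffOn ℝ ∞ y U) :
    ContDiffOn ℝ ∞ (fun q => (⟨x q, y q⟩ : ℂ)) U := by
  have h : (fun q => (⟨x q, y q⟩ : ℂ)) = fun q => Complex.ofRealCLM (x q) +
      Complex.ofRealCLM (y q) * Complex.I := by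
    funext q
    apply Complex.ext <;> simp
  rw [h]
  exact (Complex.ofRealCLM.contDiff.comp_contDiffOn hx).add
    ((Complex.ofRealCLM.contDiff.comp_contDiffOn hy).mul contDiffOn_const)

theorem Dc_mk {V : Type*} [NormedAddCommGroup V] [NormedSpace ℝ V] {x y : V → ℝ}
    {U : Set V} (hU : IsOpen U) (hx : ContDiffOn ℝ ∞ x U) (hy : ContDiffOn ℝ ∞ y U) {p : V}
    (hp : p ∈ U) (w : V) :
    Dc w (fun q => (⟨x q, y q⟩ : ℂ)) p = ⟨D w x p, D w y p⟩ := by
  have h := diffAt_of_contDiffOn' hU (contDiffOn_mk hx hy) hp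
  apply Complex.ext
  · exact (Dc_re h w).symm
  · exact (Dc_im h w).symm

theorem contDiffOn_hf (hU : IsOpen U) (hφ : ContDiffOn ℝ ∞ φ U) (u w : Cn n) :
    ContDiffOn ℝ ∞ (hf φ u w) U :=
  contDiffOn_mk (contDiffOn_sf hU hφ _ _) (contDiffOn_sf hU hφ _ _)

theorem hf_eq (hU : IsOpen U) (hφ : ContDiffOn ℝ ∞ φ U) {q : ℝ × Cn n} (hq : q ∈ U)
    (u w : Cn n) :
    hf φ u w q = ∑ k, ∑ l, cHess φ q k l * cc u k * (starRingEnd ℂ) (cc w l) :=
  sf_eq hU hφ hq u w

theorem cHess_herm (hU : IsOpen U) (hφ : ContDiffOn ℝ ∞ φ U) {q : ℝ × Cn n} (hq : q ∈ U) :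
    (cHess φ q).IsHermitian := by
  ext k l
  have h1 : da l (da k φ) q = da k (da l φ) q := D_comm hU hφ hq _ _
  have h2 : db l (db k φ) q = db k (db l φ) q := D_comm hU hφ hq _ _
  have h3 : da l (db k φ) q = db k (da l φ) q := D_comm hU hφ hq _ _
  have h4 : da k (db l φ) q = db l (da k φ) q := D_comm hU hφ hq _ _
  simp only [Matrix.conjTranspose_apply, cHess, Matrix.of_apply]
  apply Complex.ext
  · simp [h1, h2]
  · simp only [RCLike.star_def, Complex.conj_im, h3, h4]
    ring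

theorem hf_conj (hU : IsOpen U) (hφ : ContDiffOn ℝ ∞ φ U) {q : ℝ × Cn n} (hq : q ∈ U)
    (u w : Cn n) : (starRingEnd ℂ) (hf φ u w q) = hf φ w u q := by
  rw [hf_eq hU hφ hq, hf_eq hU hφ hq, map_sum, Finset.sum_comm]
  refine Finset.sum_congr rfl fun k _ => ?_
  rw [map_sum]
  refine Finset.sum_congr rfl fun l _ => ?_
  have h := (cHess_herm hU hφ hq).apply k l
  rw [RCLike.star_def] at h
  rw [map_mul, map_mul, Complex.conj_conj, ← h, Complex.conj_conj]
  ring

/-- the Kähler symmetry of the third derivatives, real part -/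
theorem D_sf_symm (hU : IsOpen U) (hφ : ContDiffOn ℝ ∞ φ U) {q : ℝ × Cn n} (hq : q ∈ U)
    (u v w : Cn n) :
    D (0, u) (sf φ v w) q + D (0, J u) (sf φ v (J w)) q =
      D (0, v) (sf φ u w) q + D (0, J v) (sf φ u (J w)) q := by
  have key : ∀ a b c : Cn n, D (0, a) (sf φ b c) q =
      (D (0, a) (D (0, b) (D (0, c) φ)) q + D (0, a) (D (0, J b) (D (0, J c) φ)) q) / 4 := by
    intro a b c
    have e1 : DifferentiableAt ℝ (D (0, b) (D (0, c) φ)) q :=
      diffAt_of_contDiffOn hU (contDiffOn_D hU (contDiffOn_D hU hφ _) _) hq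
    have e2 : DifferentiableAt ℝ (D (0, J b) (D (0, J c) φ)) q :=
      diffAt_of_contDiffOn hU (contDiffOn_D hU (contDiffOn_D hU hφ _) _) hq
    have e3 : sf φ b c = fun p => (1 / 4) * (D (0, b) (D (0, c) φ) p +
        D (0, J b) (D (0, J c) φ) p) := by
      funext p
      rw [sf]
      ring
    rw [e3, D_const_mul _ (e1.fun_add e2), D_add e1 e2]
    ring
  have hneg : ∀ a b c : Cn n, D (0, a) (D (0, b) (D (0, J (J c)) φ)) q =
      -D (0, a) (D (0, b) (D (0, c) φ)) q := by
    intro a b c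
    have e1 : D (0, J (J c)) φ = fun p => (-1) * D (0, c) φ p := by
      funext p
      have : ((0:ℝ), J (J c)) = -((0:ℝ), c) := by rw [J_J]; simp
      rw [this, D_dir_neg]
      ring
    have e2 : EqOn (D (0, b) (D (0, J (J c)) φ)) (fun p => (-1) * D (0, b) (D (0, c) φ) p) U := by
      intro p hp
      rw [e1]
      exact D_const_mul _ (diffAt_of_contDiffOn hU (contDiffOn_D hU hφ _) hp) _
    rw [D_congr hU e2 _ hq, D_const_mul _ (diffAt_of_contDiffOn hU
      (contDiffOn_D hU (contDiffOn_D hU hφ _) _) hq)]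
    ring
  rw [key, key, key, key, hneg, hneg]
  have c1 := D_comm hU (contDiffOn_D hU hφ (0, w)) hq (0, u) (0, v)
  have c2 := D_comm hU (contDiffOn_D hU hφ (0, J w)) hq (0, u) (0, J v)
  have c3 := D_comm hU (contDiffOn_D hU hφ (0, J w)) hq (0, J u) (0, v)
  have c4 := D_comm hU (contDiffOn_D hU hφ (0, w)) hq (0, J u) (0, J v)
  rw [c1, c2, c3, c4]
  ring

theorem Dc_hf (hU : IsOpen U) (hφ : ContDiffOn ℝ ∞ φ U) {q : ℝ × Cn n} (hq : q ∈ U)
    (v w : Cn n) (b : ℝ × Cn n) :
    Dc b (hf φ v w) q = ⟨D b (sf φ v w) q, D b (sf φ v (J w)) q⟩ :=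
  Dc_mk hU (contDiffOn_sf hU hφ _ _) (contDiffOn_sf hU hφ _ _) hq b

/-- `∂_u = (D_u - i D_{iu}) / 2` on complex functions -/
noncomputable def dP (u : Cn n) (g : ℝ × Cn n → ℂ) (q : ℝ × Cn n) : ℂ :=
  (Dc (0, u) g q - Complex.I * Dc (0, J u) g q) / 2

/-- the Kähler symmetry of the third derivatives -/
theorem dP_hf_symm (hU : IsOpen U) (hφ : ContDiffOn ℝ ∞ φ U) {q : ℝ × Cn n} (hq : q ∈ U)
    (u v w : Cn n) : dP u (hf φ v w) q = dP v (hf φ u w) q := by
  have h1 := D_sf_symm hU hφ hq u v w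
  have h2 := D_sf_symm hU hφ hq u v (J w)
  have hneg : ∀ a b : Cn n, D (0, a) (sf φ b (J (J w))) q = -D (0, a) (sf φ b w) q := by
    intro a b
    have e1 : EqOn (sf φ b (J (J w))) (fun p => (-1) * sf φ b w p) U := by
      intro p hp
      rw [sf_eq_re hU hφ hp]
      beta_reduce
      rw [sf_eq_re hU hφ hp, Complex.re_sum, Complex.re_sum, Finset.mul_sum]
      refine Finset.sum_congr rfl fun k _ => ?_
      rw [Complex.re_sum, Complex.re_sum, Finset.mul_sum]
      refine Finset.sum_congr rfl fun l _ => ?_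
      rw [cc_J, cc_J, ← mul_assoc, Complex.I_mul_I]
      simp
    rw [D_congr hU e1 _ hq, D_const_mul _ (diffAt_of_contDiffOn hU (contDiffOn_sf hU hφ _ _) hq)]
    ring
  rw [hneg, hneg] at h2
  unfold dP
  rw [Dc_hf hU hφ hq, Dc_hf hU hφ hq, Dc_hf hU hφ hq, Dc_hf hU hφ hq]
  congr 1
  apply Complex.ext
  · simp
    linarith
  · simp
    linarith

/-- `W` is a unitary frame at `p` -/
def IsUFrame (φ : ℝ × Cn n → ℝ) (p : ℝ × Cn n) (W : Fin n → Cn n) : Prop :=
  ∀ c d, hf φ (W c) (W d) p = if c = d then 1 else 0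

theorem exists_uframe (hU : IsOpen U) (hφ : ContDiffOn ℝ ∞ φ U) {p : ℝ × Cn n} (hp : p ∈ U)
    (hpos : (cHess φ p).PosDef) :
    ∃ W : Fin n → Cn n, IsUFrame φ p W ∧ (Matrix.of fun c k => cc (W c) k).det ≠ 0 ∧
      ∀ v : Cn n, ∀ k, cc v k = ∑ d, hf φ v (W d) p * cc (W d) k := by
  open scoped MatrixOrder in
  obtain ⟨y, hy⟩ := CStarAlgebra.nonneg_iff_eq_star_mul_self.mp hpos.posSemidef.nonneg
  have hy' : cHess φ p = y.conjTranspose * y := by
    rw [hy, Matrix.star_eq_conjTranspose]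
  have hdet : IsUnit y.conjTranspose.det := by
    have h1 : IsUnit (cHess φ p).det := (Matrix.isUnit_iff_isUnit_det _).mp hpos.isUnit
    rw [hy', Matrix.det_mul] at h1
    exact isUnit_of_mul_isUnit_left h1
  set N : Matrix (Fin n) (Fin n) ℂ := (y.conjTranspose)⁻¹ with hN
  have hN1 : N * y.conjTranspose = 1 := Matrix.nonsing_inv_mul _ hdet
  have hN2 : y * N.conjTranspose = 1 := by
    rw [← Matrix.conjTranspose_conjTranspose y, ← Matrix.conjTranspose_mul, hN1,
      Matrix.conjTranspose_one]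
  have hN3 : N * cHess φ p * N.conjTranspose = 1 := by
    rw [hy', ← Matrix.mul_assoc, hN1, Matrix.one_mul, hN2]
  have hN4 : cHess φ p * N.conjTranspose * N = 1 := by
    rw [Matrix.mul_assoc] at hN3
    exact mul_eq_one_comm.mp hN3
  set W : Fin n → Cn n := fun c => (fun k => (N c k).re, fun k => (N c k).im) with hW
  have hcc : ∀ c k, cc (W c) k = N c k := fun c k => rfl
  have hform : ∀ v : Cn n, ∀ d, hf φ v (W d) p = ∑ k, cc v k * (cHess φ p * N.conjTranspose) k d := by
    intro v d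
    rw [hf_eq hU hφ hp]
    refine Finset.sum_congr rfl fun k _ => ?_
    rw [Matrix.mul_apply, Finset.mul_sum]
    refine Finset.sum_congr rfl fun l _ => ?_
    rw [hcc, Matrix.conjTranspose_apply, RCLike.star_def]
    ring
  refine ⟨W, ?_, ?_, ?_⟩
  · intro c d
    rw [hform]
    simp_rw [hcc]
    have h := congrFun (congrFun hN3 c) d
    rw [Matrix.mul_assoc, Matrix.mul_apply, Matrix.one_apply] at h
    exact h
  · have : (Matrix.of fun c k => cc (W c) k) = N := by
      ext c k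
      exact hcc c k
    rw [this]
    intro h0
    have := congrArg Matrix.det hN1
    rw [Matrix.det_mul, h0, zero_mul, Matrix.det_one] at this
    exact zero_ne_one this
  · intro v k
    have h : (Matrix.vecMul (cc v) (cHess φ p * N.conjTranspose * N)) k = cc v k := by
      rw [hN4, Matrix.vecMul_one]
    rw [← Matrix.vecMul_vecMul] at h
    rw [← h]
    change ∑ d, (Matrix.vecMul (cc v) (cHess φ p * N.conjTranspose)) d * N d k = _
    refine Finset.sum_congr rfl fun d _ => ?_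
    rw [hform, hcc]
    rfl

theorem D_D_swap (hU : IsOpen U) (hφ : ContDiffOn ℝ ∞ φ U) (a b : ℝ × Cn n) :
    EqOn (D a (D b (D b φ))) (D b (D b (D a φ))) U := by
  intro q hq
  rw [D_comm hU (contDiffOn_D hU hφ b) hq a b]
  have e : EqOn (D a (D b φ)) (D b (D a φ)) U := fun x hx => D_comm hU hφ hx a b
  exact D_congr hU e b hq

theorem D4_swap (hU : IsOpen U) (hφ : ContDiffOn ℝ ∞ φ U) {p : ℝ × Cn n} (hp : p ∈ U)
    (a b : ℝ × Cn n) : D a (D a (D b (D b φ))) p = D b (D b (D a (D a φ))) p := by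
  rw [D_congr hU (D_D_swap hU hφ a b) a hp]
  exact D_D_swap hU (contDiffOn_D hU hφ a) a b hp

theorem D_D_lev (hU : IsOpen U) (hφ : ContDiffOn ℝ ∞ φ U) {p : ℝ × Cn n} (hp : p ∈ U)
    (a : ℝ × Cn n) (w : Cn n) : D a (D a (lev φ w)) p =
      (D a (D a (D (0, w) (D (0, w) φ))) p + D a (D a (D (0, J w) (D (0, J w) φ))) p) / 4 := by
  have e : lev φ w = fun q => (1 / 4) * (D (0, w) (D (0, w) φ) q + D (0, J w) (D (0, J w) φ) q) := by
    funext q
    rw [lev]
    ring
  have h : ∀ b : ℝ × Cn n, ContDiffAt ℝ 2 (D b (D b φ)) p := fun b =>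
    ((contDiffOn_D hU (contDiffOn_D hU hφ b) b).contDiffAt (hU.mem_nhds hp)).of_le
      (WithTop.coe_le_coe.2 le_top)
  rw [e, LC.D_D_const_mul _ _ _ ((h _).add (h _)), LC.D_D_add _ _ (h _) (h _)]
  ring

theorem lev_lev_comm (hU : IsOpen U) (hφ : ContDiffOn ℝ ∞ φ U) {p : ℝ × Cn n} (hp : p ∈ U)
    (v w : Cn n) : lev (lev φ w) v p = lev (lev φ v) w p := by
  rw [lev, lev, D_D_lev hU hφ hp, D_D_lev hU hφ hp, D_D_lev hU hφ hp, D_D_lev hU hφ hp,
    D4_swap hU hφ hp (0, v) (0, w), D4_swap hU hφ hp (0, v) (0, J w),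
    D4_swap hU hφ hp (0, J v) (0, w), D4_swap hU hφ hp (0, J v) (0, J w)]
  ring

theorem Dc_hf_conj (hU : IsOpen U) (hφ : ContDiffOn ℝ ∞ φ U) {p : ℝ × Cn n} (hp : p ∈ U)
    (v w : Cn n) (b : ℝ × Cn n) :
    Dc b (hf φ w v) p = (starRingEnd ℂ) (Dc b (hf φ v w) p) := by
  rw [← Dc_conj (diffAt_of_contDiffOn' hU (contDiffOn_hf hU hφ v w) hp)]
  have h3 : EqOn (hf φ w v) (fun q => (starRingEnd ℂ) (hf φ v w q)) U := by
    intro q hq
    exact (hf_conj hU hφ hq v w).symm
  exact Dc_congr hU h3 b hp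

theorem contDiffOn_cHess (hU : IsOpen U) (hφ : ContDiffOn ℝ ∞ φ U) (k l : Fin n) :
    ContDiffOn ℝ ∞ (fun q => cHess φ q k l) U := by
  have h : ∀ a b : ℝ × Cn n, ContDiffOn ℝ ∞ (D a (D b φ)) U := fun a b =>
    contDiffOn_D hU (contDiffOn_D hU hφ b) a
  exact contDiffOn_mk (((h _ _).add (h _ _)).div_const _) (((h _ _).sub (h _ _)).div_const _)

theorem det_re_pos {p : ℝ × Cn n} (hpos : (cHess φ p).PosDef) : 0 < (cHess φ p).det.re :=
  (Complex.pos_iff.1 hpos.det_pos).1

theorem contDiffOn_logdet (hU : IsOpen U) (hφ : ContDiffOn ℝ ∞ φ U)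
    (hpos : ∀ p ∈ U, (cHess φ p).PosDef) :
    ContDiffOn ℝ ∞ (fun q => Real.log (cHess φ q).det.re) U := by
  have h : ContDiffOn ℝ ∞ (fun q => (cHess φ q).det.re) U :=
    Complex.reCLM.contDiff.comp_contDiffOn (contDiffOn_det (contDiffOn_cHess hU hφ))
  exact h.log fun p hp => (det_re_pos (hpos p hp)).ne'

/-- `∂_v ∂bar_v log det g` in a unitary frame -/
theorem lev_logdet (hU : IsOpen U) (hφ : ContDiffOn ℝ ∞ φ U)
    (hpos : ∀ p ∈ U, (cHess φ p).PosDef) {p : ℝ × Cn n} (hp : p ∈ U) {W : Fin n → Cn n}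
    (hW : IsUFrame φ p W) (hdW : (Matrix.of fun c k => cc (W c) k).det ≠ 0) (v : Cn n) :
    lev (fun q => Real.log (cHess φ q).det.re) v p =
      (∑ c, lev (lev φ v) (W c) p) - ∑ c, ∑ d,
        (Complex.normSq (Dc (0, v) (hf φ (W c) (W d)) p) +
          Complex.normSq (Dc (0, J v) (hf φ (W c) (W d)) p)) / 4 := by
  set M : ℝ × Cn n → Matrix (Fin n) (Fin n) ℂ := fun q => Matrix.of fun c d => hf φ (W c) (W d) q
    with hM
  set N : Matrix (Fin n) (Fin n) ℂ := Matrix.of fun c k => cc (W c) k with hN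
  have hMs : ∀ i j, ContDiffOn ℝ ∞ (fun q => M q i j) U := fun i j => contDiffOn_hf hU hφ _ _
  have hM1 : M p = 1 := by
    ext c d
    rw [Matrix.one_apply]
    exact hW c d
  have hMh : ∀ q ∈ U, (M q).IsHermitian := by
    intro q hq
    ext c d
    exact hf_conj hU hφ hq _ _
  have hMN : ∀ q ∈ U, M q = N * cHess φ q * N.conjTranspose := by
    intro q hq
    ext c d
    rw [Matrix.mul_apply]
    change hf φ (W c) (W d) q = _
    rw [hf_eq hU hφ hq, Finset.sum_comm]
    refine Finset.sum_congr rfl fun l _ => ?_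
    rw [Matrix.mul_apply, Finset.sum_mul]
    refine Finset.sum_congr rfl fun k _ => ?_
    rw [Matrix.conjTranspose_apply, RCLike.star_def]
    change _ = cc (W c) k * cHess φ q k l * (starRingEnd ℂ) (cc (W d) l)
    ring
  have hdet : ∀ q ∈ U, (M q).det.re = Complex.normSq N.det * (cHess φ q).det.re := by
    intro q hq
    rw [hMN q hq, Matrix.det_mul, Matrix.det_mul, Matrix.det_conjTranspose, RCLike.star_def]
    have : N.det * (cHess φ q).det * (starRingEnd ℂ) N.det =
        (Complex.normSq N.det : ℂ) * (cHess φ q).det := by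
      rw [← Complex.mul_conj]
      ring
    rw [this, Complex.re_ofReal_mul]
  have hnz : Complex.normSq N.det ≠ 0 := by
    rw [Ne, Complex.normSq_eq_zero]
    exact hdW
  have hlog : EqOn (fun q => Real.log (cHess φ q).det.re)
      (fun q => Real.log (M q).det.re - Real.log (Complex.normSq N.det)) U := by
    intro q hq
    beta_reduce
    rw [hdet q hq, Real.log_mul hnz (det_re_pos (hpos q hq)).ne']
    ring
  have hsM : ContDiffOn ℝ ∞ (fun q => Real.log (M q).det.re) U := by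
    have h1 : ContDiffOn ℝ ∞ (fun q => (M q).det.re) U :=
      Complex.reCLM.contDiff.comp_contDiffOn (contDiffOn_det hMs)
    refine h1.log fun q hq => ?_
    rw [hdet q hq]
    exact mul_ne_zero hnz (det_re_pos (hpos q hq)).ne'
  have hDD : ∀ a : ℝ × Cn n, D a (D a (fun q => Real.log (cHess φ q).det.re)) p =
      (∑ c, D a (D a (lev φ (W c))) p)
        - ∑ c, ∑ d, Complex.normSq (Dc a (hf φ (W c) (W d)) p) := by
    intro a
    have h1 : EqOn (D a (fun q => Real.log (cHess φ q).det.re))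
        (D a (fun q => Real.log (M q).det.re)) U := by
      intro q hq
      rw [D_congr hU hlog a hq, D_sub (diffAt_of_contDiffOn hU hsM hq) (differentiableAt_const _),
        D_const, sub_zero]
    rw [D_congr hU h1 a hp, D_D_logdet hU hMs hp hM1 hMh]
    rfl
  rw [lev, hDD, hDD]
  have h2 : ∀ c, lev (lev φ v) (W c) p =
      (D (0, v) (D (0, v) (lev φ (W c))) p + D (0, J v) (D (0, J v) (lev φ (W c))) p) / 4 := by
    intro c
    rw [lev_lev_comm hU hφ hp]
    rfl
  simp_rw [h2]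
  rw [← Finset.sum_div, Finset.sum_add_distrib]
  simp_rw [← Finset.sum_div]
  simp_rw [Finset.sum_add_distrib]
  ring

/-- `|∂F|^2 ≤ F |∂_v g|^2` -/
theorem grad_le (hU : IsOpen U) (hφ : ContDiffOn ℝ ∞ φ U) {p : ℝ × Cn n} (hp : p ∈ U)
    {W : Fin n → Cn n} (v : Cn n)
    (hexp : ∀ k, cc v k = ∑ d, hf φ v (W d) p * cc (W d) k) :
    ∑ c, ((D (0, W c) (lev φ v) p) ^ 2 + (D (0, J (W c)) (lev φ v) p) ^ 2) / 4 ≤
      lev φ v p * ∑ c, ∑ d, (Complex.normSq (Dc (0, v) (hf φ (W c) (W d)) p) +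
          Complex.normSq (Dc (0, J v) (hf φ (W c) (W d)) p)) / 4 := by
  set a : Fin n → ℂ := fun d => hf φ v (W d) p with ha
  set T : Fin n → Fin n → ℂ := fun c d => dP v (hf φ (W c) (W d)) p with hT
  -- expansion of the second argument
  have hex : ∀ u : Cn n, EqOn (hf φ u v) (fun q => ∑ d, (starRingEnd ℂ) (a d) * hf φ u (W d) q) U := by
    intro u q hq
    beta_reduce
    rw [hf_eq hU hφ hq]
    have h1 : ∀ d, (starRingEnd ℂ) (a d) * hf φ u (W d) q = ∑ k, ∑ l, (starRingEnd ℂ) (a d) *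
        (cHess φ q k l * cc u k * (starRingEnd ℂ) (cc (W d) l)) := by
      intro d
      rw [hf_eq hU hφ hq, Finset.mul_sum]
      exact Finset.sum_congr rfl fun k _ => Finset.mul_sum _ _ _
    simp_rw [h1]
    conv_rhs => rw [Finset.sum_comm]
    refine Finset.sum_congr rfl fun k _ => ?_
    conv_rhs => rw [Finset.sum_comm]
    refine Finset.sum_congr rfl fun l _ => ?_
    rw [hexp l, map_sum, Finset.mul_sum]
    refine Finset.sum_congr rfl fun d _ => ?_
    rw [map_mul]
    ring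
  have hTsum : ∀ c, dP (W c) (hf φ v v) p = ∑ d, (starRingEnd ℂ) (a d) * T c d := by
    intro c
    rw [dP_hf_symm hU hφ hp]
    have h1 : ∀ b : ℝ × Cn n, Dc b (hf φ (W c) v) p =
        ∑ d, (starRingEnd ℂ) (a d) * Dc b (hf φ (W c) (W d)) p := by
      intro b
      have e : ∀ d, DifferentiableAt ℝ (hf φ (W c) (W d)) p := fun d =>
        diffAt_of_contDiffOn' hU (contDiffOn_hf hU hφ _ _) hp
      rw [Dc_congr hU (hex (W c)) b hp, Dc_sum _ fun d _ => (e d).const_mul _]
      exact Finset.sum_congr rfl fun d _ => Dc_const_mul _ (e d) _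
    rw [dP, h1, h1, Finset.mul_sum, ← Finset.sum_sub_distrib, Finset.sum_div]
    refine Finset.sum_congr rfl fun d _ => ?_
    rw [hT]
    simp only [dP]
    ring
  have him : EqOn (sf φ v (J v)) (fun _ => 0) U := by
    intro q hq
    have := hf_conj hU hφ hq v v
    exact Complex.conj_eq_iff_im.1 this
  have hFn : ∀ c, ((D (0, W c) (lev φ v) p) ^ 2 + (D (0, J (W c)) (lev φ v) p) ^ 2) / 4 =
      Complex.normSq (dP (W c) (hf φ v v) p) := by
    intro c
    have h1 : ∀ b : ℝ × Cn n, Dc b (hf φ v v) p = ⟨D b (lev φ v) p, 0⟩ := by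
      intro b
      rw [Dc_hf hU hφ hp, D_congr hU him b hp, D_const]
      rfl
    rw [dP, h1, h1, Complex.normSq_div]
    simp [Complex.normSq_apply]
    ring
  have hF : lev φ v p = ∑ d, Complex.normSq (a d) := by
    have h1 := hex v hp
    beta_reduce at h1
    have h2 := congrArg Complex.re h1
    rw [Complex.re_sum] at h2
    have h3 : (hf φ v v p).re = lev φ v p := rfl
    rw [h3] at h2
    rw [h2]
    refine Finset.sum_congr rfl fun d _ => ?_
    change ((starRingEnd ℂ) (a d) * a d).re = _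
    rw [mul_comm, Complex.mul_conj, Complex.ofReal_re]
  have hcs : ∀ c, Complex.normSq (∑ d, (starRingEnd ℂ) (a d) * T c d) ≤
      (∑ d, Complex.normSq (a d)) * ∑ d, Complex.normSq (T c d) := by
    intro c
    have h1 : ‖∑ d, (starRingEnd ℂ) (a d) * T c d‖ ≤ ∑ d, ‖a d‖ * ‖T c d‖ := by
      refine (norm_sum_le _ _).trans (le_of_eq ?_)
      refine Finset.sum_congr rfl fun d _ => ?_
      rw [norm_mul, RCLike.norm_conj]
    have h2 := Finset.sum_mul_sq_le_sq_mul_sq Finset.univ (fun d => ‖a d‖) (fun d => ‖T c d‖)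
    rw [Complex.normSq_eq_norm_sq]
    simp_rw [Complex.normSq_eq_norm_sq]
    exact (pow_le_pow_left₀ (norm_nonneg _) h1 2).trans h2
  have hQ : ∑ c, ∑ d, Complex.normSq (T c d) =
      ∑ c, ∑ d, (Complex.normSq (Dc (0, v) (hf φ (W c) (W d)) p) +
          Complex.normSq (Dc (0, J v) (hf φ (W c) (W d)) p)) / 4 := by
    have h1 : ∑ c, ∑ d, Complex.normSq (T c d) = ∑ c, ∑ d, Complex.normSq (T d c) :=
      Finset.sum_comm
    have h2 : ∀ c d, Complex.normSq (T c d) + Complex.normSq (T d c) =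
        2 * ((Complex.normSq (Dc (0, v) (hf φ (W c) (W d)) p) +
          Complex.normSq (Dc (0, J v) (hf φ (W c) (W d)) p)) / 4) := by
      intro c d
      rw [hT]
      simp only [dP]
      rw [Dc_hf_conj hU hφ hp (W c) (W d), Dc_hf_conj hU hφ hp (W c) (W d), Complex.normSq_div,
        Complex.normSq_div]
      simp [Complex.normSq_apply]
      ring
    have h3 : 2 * ∑ c, ∑ d, Complex.normSq (T c d) = 2 * ∑ c, ∑ d,
        (Complex.normSq (Dc (0, v) (hf φ (W c) (W d)) p) +
          Complex.normSq (Dc (0, J v) (hf φ (W c) (W d)) p)) / 4 := by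
      conv_lhs => rw [two_mul]
      conv_lhs => arg 2; rw [h1]
      rw [← Finset.sum_add_distrib, Finset.mul_sum]
      refine Finset.sum_congr rfl fun c _ => ?_
      rw [← Finset.sum_add_distrib, Finset.mul_sum]
      exact Finset.sum_congr rfl fun d _ => h2 c d
    linarith
  rw [← hQ, hF, Finset.mul_sum]
  refine Finset.sum_le_sum fun c _ => ?_
  rw [hFn, hTsum]
  exact hcs c

theorem evol {n : ℕ} {φ : ℝ × Cn n → ℝ} {U : Set (ℝ × Cn n)} (hU : IsOpen U)
    (hφ : ContDiffOn ℝ ∞ φ U) (hpos : ∀ p ∈ U, (cHess φ p).PosDef)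
    (flow_re : ∀ p ∈ U, ∀ k l, dt (fun q => (cHess φ q k l).re) p =
      (cHess (fun q => Real.log (cHess φ q).det.re) p k l).re)
    (flow_im : ∀ p ∈ U, ∀ k l, dt (fun q => (cHess φ q k l).im) p =
      (cHess (fun q => Real.log (cHess φ q).det.re) p k l).im) {p : ℝ × Cn n} (hp : p ∈ U) :
    ∃ W : Fin n → Cn n, ∀ v : Fin n → ℝ, v ≠ 0 →
      dt (fun q => Real.log (Fv φ v q)) p ≤
        ∑ c, lev (fun q => Real.log (Fv φ v q)) (W c) p := by
  obtain ⟨W, hW, hdW, hexp⟩ := exists_uframe hU hφ hp (hpos p hp)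
  refine ⟨W, fun v hv => ?_⟩
  have hv' : ((v, 0) : Cn n) ≠ 0 := by
    intro h
    exact hv (congrArg Prod.fst h)
  have hFv : Fv φ v = lev φ (v, 0) := rfl
  rw [hFv]
  have hsF : ContDiffOn ℝ ∞ (lev φ (v, 0)) U := contDiffOn_sf hU hφ _ _
  have hF2 : ContDiffAt ℝ 2 (lev φ (v, 0)) p :=
    (hsF.contDiffAt (hU.mem_nhds hp)).of_le (WithTop.coe_le_coe.2 le_top)
  have hF0 : 0 < lev φ (v, 0) p := lev_pos hU hφ hp (hpos p hp) hv'
  -- the time derivative of `F`
  have hcc : ∀ k, cc ((v, 0) : Cn n) k = (v k : ℂ) := fun k => rfl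
  have hFeq : EqOn (lev φ (v, 0)) (fun q => ∑ k, ∑ l, (v k * v l) * (cHess φ q k l).re) U := by
    intro q hq
    rw [lev_eq_sf, sf_eq_re hU hφ hq, Complex.re_sum]
    refine Finset.sum_congr rfl fun k _ => ?_
    rw [Complex.re_sum]
    refine Finset.sum_congr rfl fun l _ => ?_
    rw [hcc, hcc, Complex.conj_ofReal]
    simp
    ring
  have hdre : ∀ k l, DifferentiableAt ℝ (fun q => (cHess φ q k l).re) p := fun k l =>
    diffAt_of_contDiffOn hU (Complex.reCLM.contDiff.comp_contDiffOn (contDiffOn_cHess hU hφ k l)) hp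
  have hdt : dt (lev φ (v, 0)) p = lev (fun q => Real.log (cHess φ q).det.re) (v, 0) p := by
    rw [lev_eq_sf (fun q => Real.log (cHess φ q).det.re),
      sf_eq_re hU (contDiffOn_logdet hU hφ hpos) hp, Complex.re_sum, dt,
      D_congr hU hFeq _ hp, D_sum]
    · refine Finset.sum_congr rfl fun k _ => ?_
      rw [D_sum, Complex.re_sum]
      · refine Finset.sum_congr rfl fun l _ => ?_
        rw [D_const_mul _ (hdre k l)]
        have h := flow_re p hp k l
        rw [dt] at h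
        rw [h, hcc, hcc, Complex.conj_ofReal]
        simp
        ring
      · exact fun l _ => (hdre k l).const_mul _
    · exact fun k _ => DifferentiableAt.fun_sum fun l _ => (hdre k l).const_mul _
  rw [lev_logdet hU hφ hpos hp hW hdW] at hdt
  have hgrad := grad_le hU hφ hp (v, 0) (hexp (v, 0))
  set Q : ℝ := ∑ c, ∑ d, (Complex.normSq (Dc (0, (v, 0)) (hf φ (W c) (W d)) p) +
          Complex.normSq (Dc (0, J (v, 0)) (hf φ (W c) (W d)) p)) / 4 with hQ
  have h1 : dt (fun q => Real.log (lev φ (v, 0) q)) p = dt (lev φ (v, 0)) p / lev φ (v, 0) p :=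
    LC.D_log _ (hF2.differentiableAt (by norm_num)) hF0.ne'
  have h2 : ∀ c, lev (fun q => Real.log (lev φ (v, 0) q)) (W c) p =
      lev (lev φ (v, 0)) (W c) p / lev φ (v, 0) p -
        (((D (0, W c) (lev φ (v, 0)) p) ^ 2 + (D (0, J (W c)) (lev φ (v, 0)) p) ^ 2) / 4) /
          (lev φ (v, 0) p) ^ 2 := by
    intro c
    have e : ∀ (f : ℝ × Cn n → ℝ), lev f (W c) p =
        (D (0, W c) (D (0, W c) f) p + D (0, J (W c)) (D (0, J (W c)) f) p) / 4 := fun f => rfl
    rw [e, e, LC.D_D_log _ _ hF2 hF0.ne', LC.D_D_log _ _ hF2 hF0.ne']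
    field_simp
    ring
  rw [h1, hdt]
  simp_rw [h2]
  rw [Finset.sum_sub_distrib, ← Finset.sum_div, ← Finset.sum_div]
  set X := ∑ c, ((D (0, W c) (lev φ (v, 0)) p) ^ 2 +
    (D (0, J (W c)) (lev φ (v, 0)) p) ^ 2) / 4 with hX
  set F := lev φ (v, 0) p with hF
  have h3 : X / F ^ 2 ≤ Q / F := by
    rw [div_le_div_iff₀ (by positivity) hF0]
    nlinarith
  rw [sub_div]
  linarith

end Pool.Agent.ToricKRF.G

end
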