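import Pool.Agent.Work.MP_a2bf38_gt.Fu.G.LogDet
import Pool.Agent.Work.MP_a2bf38_gt.H.Defs

/-!
# The evolution inequality `(∂_t - Δ) log |ξ|^2 ≤ 0` for a holomorphic vector field `ξ`
-/

open scoped ContDiff ENNReal ComplexOrder
open Set Finset

namespace Pool.Agent.ToricKRF.G

section frame

variable {n : ℕ} {φ : ℝ × Cn n → ℝ} {U : Set (ℝ × Cn n)} {p : ℝ × Cn n} {W : Fin n → Cn n}

theorem uframe_matrix (hU : IsOpen U) (hφ : ContDiffOn ℝ ∞ φ U) (hp : p ∈ U)
    (hW : IsUFrame φ p W) :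
    (Matrix.of fun c k => cc (W c) k) * cHess φ p *
      (Matrix.of fun c k => cc (W c) k).conjTranspose = 1 := by
  ext c d
  rw [Matrix.one_apply, ← hW c d, hf_eq hU hφ hp, Matrix.mul_apply, Finset.sum_comm]
  refine Finset.sum_congr rfl fun l _ => ?_
  rw [Matrix.mul_apply, Finset.sum_mul]
  refine Finset.sum_congr rfl fun k _ => ?_
  rw [Matrix.conjTranspose_apply, RCLike.star_def]
  change cc (W c) k * cHess φ p k l * (starRingEnd ℂ) (cc (W d) l) = _
  ring

theorem uframe_det (hU : IsOpen U) (hφ : ContDiffOn ℝ ∞ φ U) (hp : p ∈ U)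
    (hW : IsUFrame φ p W) : (Matrix.of fun c k => cc (W c) k).det ≠ 0 := by
  intro h0
  have := congrArg Matrix.det (uframe_matrix hU hφ hp hW)
  rw [Matrix.det_mul, Matrix.det_mul, h0, zero_mul, zero_mul, Matrix.det_one] at this
  exact zero_ne_one this

theorem uframe_expand (hU : IsOpen U) (hφ : ContDiffOn ℝ ∞ φ U) (hp : p ∈ U)
    (hW : IsUFrame φ p W) (v : Cn n) (k : Fin n) :
    cc v k = ∑ d, hf φ v (W d) p * cc (W d) k := by
  set N : Matrix (Fin n) (Fin n) ℂ := Matrix.of fun c k => cc (W c) k with hN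
  have hN3 := uframe_matrix hU hφ hp hW
  have hN4 : cHess φ p * N.conjTranspose * N = 1 := by
    rw [Matrix.mul_assoc] at hN3
    exact mul_eq_one_comm.mp hN3
  have hform : ∀ d, hf φ v (W d) p = ∑ k, cc v k * (cHess φ p * N.conjTranspose) k d := by
    intro d
    rw [hf_eq hU hφ hp]
    refine Finset.sum_congr rfl fun k _ => ?_
    rw [Matrix.mul_apply, Finset.mul_sum]
    refine Finset.sum_congr rfl fun l _ => ?_
    rw [Matrix.conjTranspose_apply, RCLike.star_def]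
    change _ = cc v k * (cHess φ p k l * (starRingEnd ℂ) (cc (W d) l))
    ring
  have h : (Matrix.vecMul (cc v) (cHess φ p * N.conjTranspose * N)) k = cc v k := by
    rw [hN4, Matrix.vecMul_one]
  rw [← Matrix.vecMul_vecMul] at h
  rw [← h]
  change ∑ d, (Matrix.vecMul (cc v) (cHess φ p * N.conjTranspose)) d * N d k = _
  refine Finset.sum_congr rfl fun d _ => ?_
  rw [hform]
  rfl

/-- `tr_ω ω = n` in a unitary frame -/
theorem sum_lev_uframe (hW : IsUFrame φ p W) : ∑ c, lev φ (W c) p = n := by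
  have h : ∀ c, lev φ (W c) p = 1 := by
    intro c
    have h1 := congrArg Complex.re (hW c c)
    rw [if_pos rfl, Complex.one_re] at h1
    exact h1
  simp [h]

/-- the matrix `h(W_c, W_d)` as a function -/
noncomputable def fM (φ : ℝ × Cn n → ℝ) (W : Fin n → Cn n) (q : ℝ × Cn n) :
    Matrix (Fin n) (Fin n) ℂ := Matrix.of fun c d => hf φ (W c) (W d) q

theorem log_fM (hU : IsOpen U) (hφ : ContDiffOn ℝ ∞ φ U) (hpos : ∀ p ∈ U, (cHess φ p).PosDef)
    (hdW : (Matrix.of fun c k => cc (W c) k).det ≠ 0) :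
    EqOn (fun q => Real.log (cHess φ q).det.re)
      (fun q => Real.log (fM φ W q).det.re -
        Real.log (Complex.normSq (Matrix.of fun c k => cc (W c) k).det)) U ∧
    ∀ q ∈ U, 0 < (fM φ W q).det.re := by
  set N : Matrix (Fin n) (Fin n) ℂ := Matrix.of fun c k => cc (W c) k with hN
  have hMN : ∀ q ∈ U, fM φ W q = N * cHess φ q * N.conjTranspose := by
    intro q hq
    ext c d
    rw [Matrix.mul_apply]
    change hf φ (W c) (W d) q = _
    rw [hf_eq hU hφ hq, Finset.sum_comm]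
    refine Finset.sum_congr rfl fun l _ => ?_
    rw [Matrix.mul_apply, Finset.sum_mul]
    refine Finset.sum_congr rfl fun k _ => ?_
    rw [Matrix.conjTranspose_apply, RCLike.star_def]
    change _ = cc (W c) k * cHess φ q k l * (starRingEnd ℂ) (cc (W d) l)
    ring
  have hdet : ∀ q ∈ U, (fM φ W q).det.re = Complex.normSq N.det * (cHess φ q).det.re := by
    intro q hq
    rw [hMN q hq, Matrix.det_mul, Matrix.det_mul, Matrix.det_conjTranspose, RCLike.star_def]
    have : N.det * (cHess φ q).det * (starRingEnd ℂ) N.det =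
        (Complex.normSq N.det : ℂ) * (cHess φ q).det := by
      rw [← Complex.mul_conj]
      ring
    rw [this, Complex.re_ofReal_mul]
  have hnz : 0 < Complex.normSq N.det := Complex.normSq_pos.2 hdW
  refine ⟨?_, ?_⟩
  · intro q hq
    beta_reduce
    rw [hdet q hq, Real.log_mul hnz.ne' (det_re_pos (hpos q hq)).ne']
    ring
  · intro q hq
    rw [hdet q hq]
    exact mul_pos hnz (det_re_pos (hpos q hq))

/-- `∂_t log det g = tr_g ∂_t g` in a unitary frame -/
theorem dt_logdet (hU : IsOpen U) (hφ : ContDiffOn ℝ ∞ φ U) (hpos : ∀ p ∈ U, (cHess φ p).PosDef)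
    (hp : p ∈ U) (hW : IsUFrame φ p W) :
    dt (fun q => Real.log (cHess φ q).det.re) p = ∑ c, dt (lev φ (W c)) p := by
  obtain ⟨hlog, hMpos⟩ := log_fM hU hφ hpos (uframe_det hU hφ hp hW)
  have hMs : ∀ i j, ContDiffOn ℝ ∞ (fun q => fM φ W q i j) U := fun i j =>
    contDiffOn_hf hU hφ _ _
  have hMd : ∀ i j, DifferentiableAt ℝ (fun q => fM φ W q i j) p := fun i j =>
    diffAt_of_contDiffOn' hU (hMs i j) hp
  have hM1 : fM φ W p = 1 := by
    ext c d
    rw [Matrix.one_apply]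
    exact hW c d
  have hdd : DifferentiableAt ℝ (fun q => (fM φ W q).det.re) p :=
    diffAt_of_contDiffOn hU (Complex.reCLM.contDiff.comp_contDiffOn (contDiffOn_det hMs)) hp
  have hne : (fM φ W p).det.re ≠ 0 := (hMpos p hp).ne'
  rw [dt, D_congr hU hlog _ hp, D_sub (hdd.log hne) (differentiableAt_const _), D_const, sub_zero,
    LC.D_log _ hdd hne, Dc_re (diffAt_det hMd), Dc_det hMd, hM1, Matrix.adjugate_one,
    Matrix.det_one, Complex.one_re, div_one, Complex.re_sum]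
  refine Finset.sum_congr rfl fun c _ => ?_
  have h1 : ∑ j, (1 : Matrix (Fin n) (Fin n) ℂ) c j * Dc (1, 0) (fun q => fM φ W q j c) p =
      Dc (1, 0) (fun q => fM φ W q c c) p := by
    simp [Matrix.one_apply]
  rw [h1, ← Dc_re (hMd c c)]
  rfl

/-- `∂_t |v|^2 = ∂_v ∂bar_v log det g` for a constant vector `v` -/
theorem dt_lev (hU : IsOpen U) (hφ : ContDiffOn ℝ ∞ φ U) (hpos : ∀ p ∈ U, (cHess φ p).PosDef)
    (flow_re : ∀ p ∈ U, ∀ k l, dt (fun q => (cHess φ q k l).re) p =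
      (cHess (fun q => Real.log (cHess φ q).det.re) p k l).re)
    (flow_im : ∀ p ∈ U, ∀ k l, dt (fun q => (cHess φ q k l).im) p =
      (cHess (fun q => Real.log (cHess φ q).det.re) p k l).im) (hp : p ∈ U) (v : Cn n) :
    dt (lev φ v) p = lev (fun q => Real.log (cHess φ q).det.re) v p := by
  have hFeq : EqOn (lev φ v) (fun q => ∑ k, ∑ l,
      ((cc v k * (starRingEnd ℂ) (cc v l)).re * (cHess φ q k l).re -
        (cc v k * (starRingEnd ℂ) (cc v l)).im * (cHess φ q k l).im)) U := by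
    intro q hq
    rw [lev_eq_sf, sf_eq_re hU hφ hq, Complex.re_sum]
    refine Finset.sum_congr rfl fun k _ => ?_
    rw [Complex.re_sum]
    refine Finset.sum_congr rfl fun l _ => ?_
    rw [mul_assoc, Complex.mul_re]
    ring
  have hdre : ∀ k l, DifferentiableAt ℝ (fun q => (cHess φ q k l).re) p := fun k l =>
    diffAt_of_contDiffOn hU (Complex.reCLM.contDiff.comp_contDiffOn (contDiffOn_cHess hU hφ k l)) hp
  have hdim : ∀ k l, DifferentiableAt ℝ (fun q => (cHess φ q k l).im) p := fun k l =>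
    diffAt_of_contDiffOn hU (Complex.imCLM.contDiff.comp_contDiffOn (contDiffOn_cHess hU hφ k l)) hp
  have hterm : ∀ k l, DifferentiableAt ℝ (fun q =>
      ((cc v k * (starRingEnd ℂ) (cc v l)).re * (cHess φ q k l).re -
        (cc v k * (starRingEnd ℂ) (cc v l)).im * (cHess φ q k l).im)) p := fun k l =>
    ((hdre k l).const_mul _).fun_sub ((hdim k l).const_mul _)
  rw [lev_eq_sf (fun q => Real.log (cHess φ q).det.re),
    sf_eq_re hU (contDiffOn_logdet hU hφ hpos) hp, Complex.re_sum, dt, D_congr hU hFeq _ hp, D_sum]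
  · refine Finset.sum_congr rfl fun k _ => ?_
    rw [D_sum, Complex.re_sum]
    · refine Finset.sum_congr rfl fun l _ => ?_
      rw [D_sub ((hdre k l).const_mul _) ((hdim k l).const_mul _), D_const_mul _ (hdre k l),
        D_const_mul _ (hdim k l)]
      have h := flow_re p hp k l
      have h' := flow_im p hp k l
      rw [dt] at h h'
      rw [h, h']
      set X := cHess (fun q => Real.log (cHess φ q).det.re) p k l
      rw [mul_assoc X, Complex.mul_re X]
      ring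
    · exact fun l _ => hterm k l
  · exact fun k _ => DifferentiableAt.fun_sum fun l _ => hterm k l

/-- `∂_t log det g = Δ log det g` -/
theorem dt_logdet_eq (hU : IsOpen U) (hφ : ContDiffOn ℝ ∞ φ U)
    (hpos : ∀ p ∈ U, (cHess φ p).PosDef)
    (flow_re : ∀ p ∈ U, ∀ k l, dt (fun q => (cHess φ q k l).re) p =
      (cHess (fun q => Real.log (cHess φ q).det.re) p k l).re)
    (flow_im : ∀ p ∈ U, ∀ k l, dt (fun q => (cHess φ q k l).im) p =
      (cHess (fun q => Real.log (cHess φ q).det.re) p k l).im) (hp : p ∈ U)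
    (hW : IsUFrame φ p W) :
    dt (fun q => Real.log (cHess φ q).det.re) p =
      ∑ c, lev (fun q => Real.log (cHess φ q).det.re) (W c) p := by
  rw [dt_logdet hU hφ hpos hp hW]
  exact Finset.sum_congr rfl fun c _ => dt_lev hU hφ hpos flow_re flow_im hp (W c)

/-- the potential form of the flow implies the metric form -/
theorem flow_of_potential_on (hU : IsOpen U) (hφ : ContDiffOn ℝ ∞ φ U)
    (h : ∀ q ∈ U, dt φ q = Real.log (cHess φ q).det.re) :
    (∀ p ∈ U, ∀ k l, dt (fun q => (cHess φ q k l).re) p =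
      (cHess (fun q => Real.log (cHess φ q).det.re) p k l).re) ∧
    (∀ p ∈ U, ∀ k l, dt (fun q => (cHess φ q k l).im) p =
      (cHess (fun q => Real.log (cHess φ q).det.re) p k l).im) := by
  have key : ∀ a b : ℝ × Cn n, ∀ p ∈ U, D (1, 0) (D a (D b φ)) p =
      D a (D b (fun q => Real.log (cHess φ q).det.re)) p := by
    intro a b p hp
    have e1 : EqOn (D (1, 0) φ) (fun q => Real.log (cHess φ q).det.re) U := h
    rw [D_comm hU (contDiffOn_D hU hφ b) hp (1, 0) a]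
    have e2 : EqOn (D (1, 0) (D b φ)) (D b (fun q => Real.log (cHess φ q).det.re)) U := by
      intro q hq
      rw [D_comm hU hφ hq (1, 0) b]
      exact D_congr hU e1 b hq
    exact D_congr hU e2 a hp
  have hd : ∀ a b : ℝ × Cn n, ∀ p ∈ U, DifferentiableAt ℝ (D a (D b φ)) p := fun a b p hp =>
    diffAt_of_contDiffOn hU (contDiffOn_D hU (contDiffOn_D hU hφ b) a) hp
  refine ⟨?_, ?_⟩
  · intro p hp k l
    have e : (fun q => (cHess φ q k l).re) = fun q => (1 / 4) *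
        (D (0, (Pi.single k 1, 0)) (D (0, (Pi.single l 1, 0)) φ) q +
          D (0, (0, Pi.single k 1)) (D (0, (0, Pi.single l 1)) φ) q) := by
      funext q
      simp only [cHess, Matrix.of_apply, da, db]
      ring
    rw [e, dt, D_const_mul _ ((hd _ _ p hp).fun_add (hd _ _ p hp)), D_add (hd _ _ p hp)
      (hd _ _ p hp), key _ _ p hp, key _ _ p hp]
    simp only [cHess, Matrix.of_apply, da, db]
    ring
  · intro p hp k l
    have e : (fun q => (cHess φ q k l).im) = fun q => (1 / 4) *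
        (D (0, (Pi.single k 1, 0)) (D (0, (0, Pi.single l 1)) φ) q -
          D (0, (0, Pi.single k 1)) (D (0, (Pi.single l 1, 0)) φ) q) := by
      funext q
      simp only [cHess, Matrix.of_apply, da, db]
      ring
    rw [e, dt, D_const_mul _ ((hd _ _ p hp).fun_sub (hd _ _ p hp)), D_sub (hd _ _ p hp)
      (hd _ _ p hp), key _ _ p hp, key _ _ p hp]
    simp only [cHess, Matrix.of_apply, da, db]
    ring

end frame

section complex

variable {V : Type*} [NormedAddCommGroup V] [NormedSpace ℝ V]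

theorem Dc_comm {f : V → ℂ} {U : Set V} (hU : IsOpen U) (hf : ContDiffOn ℝ ∞ f U) {p : V}
    (hp : p ∈ U) (w w' : V) : Dc w (Dc w' f) p = Dc w' (Dc w f) p := by
  have hfa : ContDiffAt ℝ ∞ f p := hf.contDiffAt (hU.mem_nhds hp)
  have hs : IsSymmSndFDerivAt ℝ f p := by
    apply hfa.isSymmSndFDerivAt
    rw [minSmoothness_of_isRCLikeNormedField]
    exact WithTop.coe_le_coe.2 le_top
  have h1 : ContDiffOn ℝ ∞ (fderiv ℝ f) U :=
    ((contDiffOn_infty_iff_fderiv_of_isOpen hU).1 hf).2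
  have h2 : DifferentiableAt ℝ (fderiv ℝ f) p :=
    (h1.differentiableOn (by simp)).differentiableAt (hU.mem_nhds hp)
  have key : ∀ a b : V, Dc a (Dc b f) p = fderiv ℝ (fderiv ℝ f) p a b := by
    intro a b
    change fderiv ℝ (fun y => (fderiv ℝ f y) b) p a = _
    rw [fderiv_clm_apply h2 (differentiableAt_const b)]
    simp
  rw [key, key]
  exact hs w w'

theorem Dc_Dc_mul {f g : V → ℂ} {U : Set V} (hU : IsOpen U) (hf : ContDiffOn ℝ ∞ f U)
    (hg : ContDiffOn ℝ ∞ g U) {p : V} (hp : p ∈ U) (a : V) :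
    Dc a (Dc a (fun q => f q * g q)) p =
      f p * Dc a (Dc a g) p + 2 * (Dc a f p * Dc a g p) + g p * Dc a (Dc a f) p := by
  have h1 : EqOn (Dc a (fun q => f q * g q)) (fun q => f q * Dc a g q + g q * Dc a f q) U :=
    fun q hq => Dc_mul (diffAt_of_contDiffOn' hU hf hq) (diffAt_of_contDiffOn' hU hg hq) a
  have df := diffAt_of_contDiffOn' hU hf hp
  have dg := diffAt_of_contDiffOn' hU hg hp
  have dDf := diffAt_of_contDiffOn' hU (contDiffOn_Dc hU hf a) hp
  have dDg := diffAt_of_contDiffOn' hU (contDiffOn_Dc hU hg a) hp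
  rw [Dc_congr hU h1 a hp, Dc_add (df.fun_mul dDg) (dg.fun_mul dDf), Dc_mul df dDg, Dc_mul dg dDf]
  ring

theorem Dc_Dc_sum {κ : Type*} (s : Finset κ) {f : κ → V → ℂ} {U : Set V} (hU : IsOpen U)
    (hf : ∀ k ∈ s, ContDiffOn ℝ ∞ (f k) U) {p : V} (hp : p ∈ U) (a : V) :
    Dc a (Dc a (fun q => ∑ k ∈ s, f k q)) p = ∑ k ∈ s, Dc a (Dc a (f k)) p := by
  have h1 : EqOn (Dc a (fun q => ∑ k ∈ s, f k q)) (fun q => ∑ k ∈ s, Dc a (f k) q) U :=
    fun q hq => Dc_sum s (fun k hk => diffAt_of_contDiffOn' hU (hf k hk) hq) a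
  rw [Dc_congr hU h1 a hp, Dc_sum s fun k hk =>
    diffAt_of_contDiffOn' hU (contDiffOn_Dc hU (hf k hk) a) hp]

theorem contDiffOn_conj {f : V → ℂ} {U : Set V} (hf : ContDiffOn ℝ ∞ f U) :
    ContDiffOn ℝ ∞ (fun q => (starRingEnd ℂ) (f q)) U :=
  Complex.conjCLE.toContinuousLinearMap.contDiff.comp_contDiffOn hf

theorem Dc_Dc_conj {f : V → ℂ} {U : Set V} (hU : IsOpen U) (hf : ContDiffOn ℝ ∞ f U) {p : V}
    (hp : p ∈ U) (a : V) :
    Dc a (Dc a (fun q => (starRingEnd ℂ) (f q))) p = (starRingEnd ℂ) (Dc a (Dc a f) p) := by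
  have h1 : EqOn (Dc a (fun q => (starRingEnd ℂ) (f q))) (fun q => (starRingEnd ℂ) (Dc a f q)) U :=
    fun q hq => Dc_conj (diffAt_of_contDiffOn' hU hf hq) a
  rw [Dc_congr hU h1 a hp, Dc_conj (diffAt_of_contDiffOn' hU (contDiffOn_Dc hU hf a) hp)]

theorem D_D_re {f : V → ℂ} {U : Set V} (hU : IsOpen U) (hf : ContDiffOn ℝ ∞ f U) {p : V}
    (hp : p ∈ U) (a : V) :
    D a (D a (fun q => (f q).re)) p = (Dc a (Dc a f) p).re := by
  have h1 : EqOn (D a (fun q => (f q).re)) (fun q => (Dc a f q).re) U :=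
    fun q hq => Dc_re (diffAt_of_contDiffOn' hU hf hq) a
  rw [D_congr hU h1 a hp, Dc_re (diffAt_of_contDiffOn' hU (contDiffOn_Dc hU hf a) hp)]

end complex

section wirtinger

variable {n : ℕ} {U : Set (ℝ × Cn n)} {f g : ℝ × Cn n → ℂ} {p : ℝ × Cn n}

/-- `∂bar_u = (D_u + i D_{iu}) / 2` on complex functions -/
noncomputable def dPb (u : Cn n) (g : ℝ × Cn n → ℂ) (q : ℝ × Cn n) : ℂ :=
  (Dc (0, u) g q + Complex.I * Dc (0, J u) g q) / 2

/-- `∂_u ∂bar_u` on complex functions -/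
noncomputable def Lc (u : Cn n) (g : ℝ × Cn n → ℂ) (q : ℝ × Cn n) : ℂ :=
  (Dc (0, u) (Dc (0, u) g) q + Dc (0, J u) (Dc (0, J u) g) q) / 4

theorem Lc_mul (hU : IsOpen U) (hf : ContDiffOn ℝ ∞ f U) (hg : ContDiffOn ℝ ∞ g U) (hp : p ∈ U)
    (u : Cn n) : Lc u (fun q => f q * g q) p = f p * Lc u g p + g p * Lc u f p +
      (dP u f p * dPb u g p + dPb u f p * dP u g p) := by
  rw [Lc, Dc_Dc_mul hU hf hg hp, Dc_Dc_mul hU hf hg hp, Lc, Lc, dP, dPb, dPb, dP]
  have hI := Complex.I_mul_I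
  linear_combination (Dc (0, J u) f p * Dc (0, J u) g p / 2) * hI

theorem dP_mul (hf : DifferentiableAt ℝ f p) (hg : DifferentiableAt ℝ g p) (u : Cn n) :
    dP u (fun q => f q * g q) p = f p * dP u g p + g p * dP u f p := by
  rw [dP, Dc_mul hf hg, Dc_mul hf hg, dP, dP]
  ring

theorem dPb_mul (hf : DifferentiableAt ℝ f p) (hg : DifferentiableAt ℝ g p) (u : Cn n) :
    dPb u (fun q => f q * g q) p = f p * dPb u g p + g p * dPb u f p := by
  rw [dPb, Dc_mul hf hg, Dc_mul hf hg, dPb, dPb]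
  ring

theorem dP_conj (hf : DifferentiableAt ℝ f p) (u : Cn n) :
    dP u (fun q => (starRingEnd ℂ) (f q)) p = (starRingEnd ℂ) (dPb u f p) := by
  rw [dP, Dc_conj hf, Dc_conj hf, dPb, map_div₀, map_add, map_mul, Complex.conj_I, map_ofNat]
  ring

theorem dPb_conj (hf : DifferentiableAt ℝ f p) (u : Cn n) :
    dPb u (fun q => (starRingEnd ℂ) (f q)) p = (starRingEnd ℂ) (dP u f p) := by
  rw [dPb, Dc_conj hf, Dc_conj hf, dP, map_div₀, map_sub, map_mul, Complex.conj_I, map_ofNat]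
  ring

theorem Lc_conj (hU : IsOpen U) (hf : ContDiffOn ℝ ∞ f U) (hp : p ∈ U) (u : Cn n) :
    Lc u (fun q => (starRingEnd ℂ) (f q)) p = (starRingEnd ℂ) (Lc u f p) := by
  rw [Lc, Dc_Dc_conj hU hf hp, Dc_Dc_conj hU hf hp, Lc, map_div₀, map_add, map_ofNat]

theorem Lc_sum {κ : Type*} (s : Finset κ) {f : κ → ℝ × Cn n → ℂ} (hU : IsOpen U)
    (hf : ∀ k ∈ s, ContDiffOn ℝ ∞ (f k) U) (hp : p ∈ U) (u : Cn n) :
    Lc u (fun q => ∑ k ∈ s, f k q) p = ∑ k ∈ s, Lc u (f k) p := by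
  rw [Lc, Dc_Dc_sum s hU hf hp, Dc_Dc_sum s hU hf hp, ← Finset.sum_add_distrib, Finset.sum_div]
  rfl

theorem dP_sum {κ : Type*} (s : Finset κ) {f : κ → ℝ × Cn n → ℂ}
    (hf : ∀ k ∈ s, DifferentiableAt ℝ (f k) p) (u : Cn n) :
    dP u (fun q => ∑ k ∈ s, f k q) p = ∑ k ∈ s, dP u (f k) p := by
  rw [dP, Dc_sum s hf, Dc_sum s hf, Finset.mul_sum, ← Finset.sum_sub_distrib, Finset.sum_div]
  rfl

/-- holomorphic in the space variable -/
def Hol (U : Set (ℝ × Cn n)) (x : ℝ × Cn n → ℂ) : Prop :=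
  ∀ q ∈ U, ∀ u : Cn n, Dc (0, J u) x q = Complex.I * Dc (0, u) x q

theorem Hol.dPb {x : ℝ × Cn n → ℂ} (h : Hol U x) (hp : p ∈ U) (u : Cn n) : dPb u x p = 0 := by
  rw [G.dPb, h p hp u, ← mul_assoc, Complex.I_mul_I]
  ring

theorem Hol.Lc {x : ℝ × Cn n → ℂ} (hU : IsOpen U) (hx : ContDiffOn ℝ ∞ x U) (h : Hol U x)
    (hp : p ∈ U) (u : Cn n) : Lc u x p = 0 := by
  have h1 : EqOn (Dc (0, J u) x) (fun q => Complex.I * Dc (0, u) x q) U := fun q hq => h q hq u
  have hd : ∀ w : ℝ × Cn n, DifferentiableAt ℝ (Dc w x) p := fun w =>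
    diffAt_of_contDiffOn' hU (contDiffOn_Dc hU hx w) hp
  have h2 : Dc (0, J u) (Dc (0, J u) x) p = -Dc (0, u) (Dc (0, u) x) p := by
    rw [Dc_congr hU h1 _ hp, Dc_const_mul _ (hd _), Dc_comm hU hx hp, Dc_congr hU h1 _ hp,
      Dc_const_mul _ (hd _), ← mul_assoc, Complex.I_mul_I]
    ring
  rw [G.Lc, h2]
  ring

theorem lev_re (hU : IsOpen U) (hf : ContDiffOn ℝ ∞ f U) (hp : p ∈ U) (u : Cn n) :
    lev (fun q => (f q).re) u p = (Lc u f p).re := by
  rw [lev, D_D_re hU hf hp, D_D_re hU hf hp, Lc, ← Complex.add_re]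
  simp

end wirtinger

section main

variable {n : ℕ} {φ : ℝ × Cn n → ℝ} {U : Set (ℝ × Cn n)} {p : ℝ × Cn n} {W : Fin n → Cn n}

theorem hf_left (hU : IsOpen U) (hφ : ContDiffOn ℝ ∞ φ U) {q : ℝ × Cn n} (hq : q ∈ U)
    {u : Cn n} {x : Fin n → ℂ} (hu : ∀ k, cc u k = ∑ d, x d * cc (W d) k) (w : Cn n) :
    hf φ u w q = ∑ e, x e * hf φ (W e) w q := by
  have h1 : ∀ e, x e * hf φ (W e) w q = ∑ k, ∑ l, x e *
      (cHess φ q k l * cc (W e) k * (starRingEnd ℂ) (cc w l)) := by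
    intro e
    rw [hf_eq hU hφ hq, Finset.mul_sum]
    exact Finset.sum_congr rfl fun k _ => Finset.mul_sum _ _ _
  simp_rw [h1]
  rw [hf_eq hU hφ hq]
  conv_rhs => rw [Finset.sum_comm]
  refine Finset.sum_congr rfl fun k _ => ?_
  conv_rhs => rw [Finset.sum_comm]
  refine Finset.sum_congr rfl fun l _ => ?_
  rw [hu k, Finset.mul_sum, Finset.sum_mul]
  exact Finset.sum_congr rfl fun d _ => by ring

theorem hf_right (hU : IsOpen U) (hφ : ContDiffOn ℝ ∞ φ U) {q : ℝ × Cn n} (hq : q ∈ U)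
    {u : Cn n} {x : Fin n → ℂ} (hu : ∀ k, cc u k = ∑ d, x d * cc (W d) k) (w : Cn n) :
    hf φ w u q = ∑ e, (starRingEnd ℂ) (x e) * hf φ w (W e) q := by
  rw [← hf_conj hU hφ hq, hf_left hU hφ hq hu, map_sum]
  refine Finset.sum_congr rfl fun e _ => ?_
  rw [map_mul, hf_conj hU hφ hq]

theorem hf_expand (hU : IsOpen U) (hφ : ContDiffOn ℝ ∞ φ U) {q : ℝ × Cn n} (hq : q ∈ U)
    {u : Cn n} {x : Fin n → ℂ} (hu : ∀ k, cc u k = ∑ d, x d * cc (W d) k) :
    hf φ u u q = ∑ e, ∑ d, (x e * (starRingEnd ℂ) (x d)) * hf φ (W e) (W d) q := by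
  rw [hf_left hU hφ hq hu]
  refine Finset.sum_congr rfl fun e _ => ?_
  rw [hf_right hU hφ hq hu, Finset.mul_sum]
  exact Finset.sum_congr rfl fun d _ => by ring

/-- `|∂_v g|^2` in a frame -/
theorem sum_normSq_T (hU : IsOpen U) (hφ : ContDiffOn ℝ ∞ φ U) (hp : p ∈ U) (v : Cn n) :
    ∑ c, ∑ d, Complex.normSq (dP v (hf φ (W c) (W d)) p) =
      ∑ c, ∑ d, (Complex.normSq (Dc (0, v) (hf φ (W c) (W d)) p) +
          Complex.normSq (Dc (0, J v) (hf φ (W c) (W d)) p)) / 4 := by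
  set T : Fin n → Fin n → ℂ := fun c d => dP v (hf φ (W c) (W d)) p with hT
  have h1 : ∑ c, ∑ d, Complex.normSq (T c d) = ∑ c, ∑ d, Complex.normSq (T d c) :=
    Finset.sum_comm
  have h2 : ∀ c d, Complex.normSq (T c d) + Complex.normSq (T d c) =
      2 * ((Complex.normSq (Dc (0, v) (hf φ (W c) (W d)) p) +
        Complex.normSq (Dc (0, J v) (hf φ (W c) (W d)) p)) / 4) := by
    intro c d
    rw [hT]
    simp only [dP]
    rw [Dc_hf_conj hU hφ hp (W c) (W d), Dc_hf_conj hU hφ hp (W c) (W d), Complex.normSq_div,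
      Complex.normSq_div]
    simp [Complex.normSq_apply]
    ring
  have h3 : 2 * ∑ c, ∑ d, Complex.normSq (T c d) = 2 * ∑ c, ∑ d,
      (Complex.normSq (Dc (0, v) (hf φ (W c) (W d)) p) +
        Complex.normSq (Dc (0, J v) (hf φ (W c) (W d)) p)) / 4 := by
    conv_lhs => rw [two_mul]
    conv_lhs => arg 2; rw [h1]
    rw [← Finset.sum_add_distrib, Finset.mul_sum]
    refine Finset.sum_congr rfl fun c _ => ?_
    rw [← Finset.sum_add_distrib, Finset.mul_sum]
    exact Finset.sum_congr rfl fun d _ => h2 c d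
  linarith

/-- The evolution inequality in a unitary frame, for a field given by holomorphic coefficient
functions `x` in the frame. -/
theorem evol_coeff (hU : IsOpen U) (hφ : ContDiffOn ℝ ∞ φ U) (hpos : ∀ p ∈ U, (cHess φ p).PosDef)
    (flow_re : ∀ p ∈ U, ∀ k l, dt (fun q => (cHess φ q k l).re) p =
      (cHess (fun q => Real.log (cHess φ q).det.re) p k l).re)
    (flow_im : ∀ p ∈ U, ∀ k l, dt (fun q => (cHess φ q k l).im) p =
      (cHess (fun q => Real.log (cHess φ q).det.re) p k l).im) (hp : p ∈ U)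
    (hW : IsUFrame φ p W) {x : Fin n → ℝ × Cn n → ℂ} {U' : Set (ℝ × Cn n)} (hU' : IsOpen U')
    (hU'U : U' ⊆ U) (hp' : p ∈ U') (hx : ∀ d, ContDiffOn ℝ ∞ (x d) U') (hol : ∀ d, Hol U' (x d))
    (hxt : ∀ d, Dc (1, 0) (x d) p = 0) {ξ : Cn n → Cn n}
    (hξ : ∀ q ∈ U', ∀ k, cc (ξ q.2) k = ∑ d, x d q * cc (W d) k) (hne : ξ p.2 ≠ 0) :
    dt (fun q => Real.log (lev φ (ξ q.2) q)) p ≤
        ∑ c, lev (fun q => Real.log (lev φ (ξ q.2) q)) (W c) p := by
  have hφ' : ContDiffOn ℝ ∞ φ U' := hφ.mono hU'U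
  set v := ξ p.2 with hv
  set M : Fin n → Fin n → ℝ × Cn n → ℂ := fun e d => hf φ (W e) (W d) with hM
  have hMs : ∀ e d, ContDiffOn ℝ ∞ (M e d) U' := fun e d => contDiffOn_hf hU' hφ' _ _
  have hMd : ∀ e d, DifferentiableAt ℝ (M e d) p := fun e d =>
    diffAt_of_contDiffOn' hU' (hMs e d) hp'
  have hMp : ∀ e d, M e d p = if e = d then 1 else 0 := hW
  have hxd : ∀ d, DifferentiableAt ℝ (x d) p := fun d => diffAt_of_contDiffOn' hU' (hx d) hp'
  set Y : Fin n → Fin n → ℝ × Cn n → ℂ := fun e d q => x e q * (starRingEnd ℂ) (x d q) with hY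
  have hYs : ∀ e d, ContDiffOn ℝ ∞ (Y e d) U' := fun e d =>
    (hx e).mul (contDiffOn_conj (hx d))
  have hYd : ∀ e d, DifferentiableAt ℝ (Y e d) p := fun e d =>
    diffAt_of_contDiffOn' hU' (hYs e d) hp'
  set Fc : ℝ × Cn n → ℂ := fun q => ∑ e, ∑ d, Y e d q * M e d q with hFc
  have hYMs : ∀ e d, ContDiffOn ℝ ∞ (fun q => Y e d q * M e d q) U' := fun e d =>
    (hYs e d).mul (hMs e d)
  have hYMd : ∀ e d, DifferentiableAt ℝ (fun q => Y e d q * M e d q) p := fun e d =>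
    diffAt_of_contDiffOn' hU' (hYMs e d) hp'
  have hFcs : ContDiffOn ℝ ∞ Fc U' :=
    ContDiffOn.sum fun e _ => ContDiffOn.sum fun d _ => hYMs e d
  have hFc_eq : ∀ q ∈ U', Fc q = hf φ (ξ q.2) (ξ q.2) q := by
    intro q hq
    rw [hf_expand (W := W) hU hφ (hU'U hq) (hξ q hq)]
  have hF_eq : EqOn (fun q => lev φ (ξ q.2) q) (fun q => (Fc q).re) U' := by
    intro q hq
    beta_reduce
    rw [hFc_eq q hq]
    rfl
  have hFim : EqOn (fun q => (Fc q).im) (fun _ => 0) U' := by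
    intro q hq
    beta_reduce
    rw [hFc_eq q hq]
    exact Complex.conj_eq_iff_im.1 (hf_conj hU hφ (hU'U hq) _ _)
  -- values at `p`
  set a : Fin n → ℂ := fun d => x d p with ha
  set A : Fin n → Fin n → ℂ := fun c d => dP (W c) (x d) p with hA
  set T : Fin n → Fin n → ℂ := fun c d => dP v (hf φ (W c) (W d)) p with hT
  have hva : ∀ k, cc v k = ∑ d, a d * cc (W d) k := hξ p hp'
  have hYp : ∀ e d, Y e d p = a e * (starRingEnd ℂ) (a d) := fun e d => rfl
  -- derivatives of `Y`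
  have hxc : ∀ d, DifferentiableAt ℝ (fun q => (starRingEnd ℂ) (x d q)) p := fun d =>
    diffAt_of_contDiffOn' hU' (contDiffOn_conj (hx d)) hp'
  have hdPY : ∀ c e d, dP (W c) (Y e d) p = (starRingEnd ℂ) (a d) * A c e := by
    intro c e d
    rw [hY]
    rw [dP_mul (hxd e) (hxc d), dP_conj (hxd d), (hol d).dPb hp']
    simp [ha, hA]
  have hdPbY : ∀ c e d, dPb (W c) (Y e d) p = a e * (starRingEnd ℂ) (A c d) := by
    intro c e d
    rw [hY]
    rw [dPb_mul (hxd e) (hxc d), dPb_conj (hxd d), (hol e).dPb hp']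
    simp [ha, hA]
  have hLY : ∀ c e d, Lc (W c) (Y e d) p = A c e * (starRingEnd ℂ) (A c d) := by
    intro c e d
    rw [hY]
    rw [Lc_mul hU' (hx e) (contDiffOn_conj (hx d)) hp', Lc_conj hU' (hx d) hp',
      (hol d).Lc hU' (hx d) hp', (hol e).Lc hU' (hx e) hp', (hol e).dPb hp', dPb_conj (hxd d)]
    simp [hA]
  -- third derivatives
  have hMconj : ∀ e d c, dPb (W c) (M e d) p = (starRingEnd ℂ) (dP (W c) (M d e) p) := by
    intro e d c
    rw [dPb, dP, hM]
    rw [Dc_hf_conj hU hφ hp (W d) (W e), Dc_hf_conj hU hφ hp (W d) (W e), map_div₀, map_sub,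
      map_mul, Complex.conj_I, map_ofNat]
    ring
  have hTsum : ∀ c d, ∑ e, a e * dP (W c) (M e d) p = T c d := by
    intro c d
    have h1 : dP (W c) (hf φ v (W d)) p = T c d := dP_hf_symm hU hφ hp _ _ _
    rw [← h1]
    have h2 : EqOn (hf φ v (W d)) (fun q => ∑ e, a e * M e d q) U := fun q hq =>
      hf_left hU hφ hq hva (W d)
    have h3 : ∀ b : ℝ × Cn n, Dc b (hf φ v (W d)) p = ∑ e, a e * Dc b (M e d) p := by
      intro b
      rw [Dc_congr hU h2 b hp, Dc_sum _ fun e _ => (hMd e d).const_mul _]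
      exact Finset.sum_congr rfl fun e _ => Dc_const_mul _ (hMd e d) _
    rw [dP, h3, h3, Finset.mul_sum, ← Finset.sum_sub_distrib, Finset.sum_div]
    refine Finset.sum_congr rfl fun e _ => ?_
    rw [dP]
    ring
  have hite : ∀ (g : Fin n → Fin n → ℂ), ∑ e, ∑ d, g e d * M e d p = ∑ d, g d d := by
    intro g
    refine Finset.sum_congr rfl fun e _ => ?_
    simp [hMp]
  -- the gradient
  have hgrad : ∀ c, dP (W c) Fc p = ∑ d, (starRingEnd ℂ) (a d) * (T c d + A c d) := by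
    intro c
    rw [hFc, dP_sum _ fun e _ => DifferentiableAt.fun_sum fun d _ => hYMd e d]
    have h1 : ∀ e, dP (W c) (fun q => ∑ d, Y e d q * M e d q) p =
        ∑ d, (Y e d p * dP (W c) (M e d) p + (starRingEnd ℂ) (a d) * A c e * M e d p) := by
      intro e
      rw [dP_sum _ fun d _ => hYMd e d]
      refine Finset.sum_congr rfl fun d _ => ?_
      rw [dP_mul (hYd e d) (hMd e d), hdPY]
      ring
    simp_rw [h1, Finset.sum_add_distrib]
    rw [hite fun e d => (starRingEnd ℂ) (a d) * A c e, Finset.sum_comm]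
    rw [← Finset.sum_add_distrib]
    refine Finset.sum_congr rfl fun d _ => ?_
    rw [mul_add, ← hTsum c d, Finset.mul_sum]
    congr 1
    refine Finset.sum_congr rfl fun e _ => ?_
    rw [hYp]
    ring
  -- the constant vector `v`
  have hvv : EqOn (hf φ v v) (fun q => ∑ e, ∑ d, Y e d p * M e d q) U := fun q hq =>
    hf_expand hU hφ hq hva
  have hcMs : ∀ e d, ContDiffOn ℝ ∞ (fun q => Y e d p * M e d q) U' := fun e d =>
    contDiffOn_const.mul (hMs e d)
  have hcMd : ∀ e d, DifferentiableAt ℝ (fun q => Y e d p * M e d q) p := fun e d =>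
    diffAt_of_contDiffOn' hU' (hcMs e d) hp'
  have hLvv : ∀ c, Lc (W c) (hf φ v v) p = ∑ e, ∑ d, Y e d p * Lc (W c) (M e d) p := by
    intro c
    have h1 : ∀ b : ℝ × Cn n, Dc b (Dc b (hf φ v v)) p = ∑ e, ∑ d, Y e d p *
        Dc b (Dc b (M e d)) p := by
      intro b
      have h2 : EqOn (Dc b (hf φ v v)) (Dc b (fun q => ∑ e, ∑ d, Y e d p * M e d q)) U' :=
        fun q hq => Dc_congr hU hvv b (hU'U hq)
      rw [Dc_congr hU' h2 b hp', Dc_Dc_sum _ hU' (fun e _ => ContDiffOn.sum fun d _ => hcMs e d) hp']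
      refine Finset.sum_congr rfl fun e _ => ?_
      rw [Dc_Dc_sum _ hU' (fun d _ => hcMs e d) hp']
      refine Finset.sum_congr rfl fun d _ => ?_
      have h3 : EqOn (Dc b (fun q => Y e d p * M e d q)) (fun q => Y e d p * Dc b (M e d) q) U' :=
        fun q hq => Dc_const_mul _ (diffAt_of_contDiffOn' hU' (hMs e d) hq) _
      rw [Dc_congr hU' h3 b hp', Dc_const_mul _ (diffAt_of_contDiffOn' hU'
        (contDiffOn_Dc hU' (hMs e d) b) hp')]
    rw [Lc, h1, h1, ← Finset.sum_add_distrib, Finset.sum_div]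
    refine Finset.sum_congr rfl fun e _ => ?_
    rw [← Finset.sum_add_distrib, Finset.sum_div]
    refine Finset.sum_congr rfl fun d _ => ?_
    rw [Lc]
    ring
  have hLvv' : ∀ c, (Lc (W c) (hf φ v v) p).re = lev (lev φ v) (W c) p := fun c =>
    (lev_re hU (contDiffOn_hf hU hφ v v) hp (W c)).symm
  -- the Laplacian
  have hLap : ∀ c, (Lc (W c) Fc p).re = lev (lev φ v) (W c) p +
      ∑ d, (Complex.normSq (A c d) + 2 * ((starRingEnd ℂ) (A c d) * T c d).re) := by
    intro c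
    have h1 : Lc (W c) Fc p = Lc (W c) (hf φ v v) p + (∑ d, A c d * (starRingEnd ℂ) (A c d)) +
        ((∑ e, A c e * (starRingEnd ℂ) (T c e)) + ∑ d, (starRingEnd ℂ) (A c d) * T c d) := by
      rw [hFc, Lc_sum _ hU' (fun e _ => ContDiffOn.sum fun d _ => hYMs e d) hp', hLvv,
        ← hite fun e d => A c e * (starRingEnd ℂ) (A c d)]
      have h2 : ∑ e, A c e * (starRingEnd ℂ) (T c e) =
          ∑ e, ∑ d, dP (W c) (Y e d) p * dPb (W c) (M e d) p := by
        refine Finset.sum_congr rfl fun e _ => ?_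
        rw [← hTsum c e, map_sum, Finset.mul_sum]
        refine Finset.sum_congr rfl fun d _ => ?_
        rw [hdPY, hMconj, map_mul]
        ring
      have h3 : ∑ d, (starRingEnd ℂ) (A c d) * T c d =
          ∑ e, ∑ d, dPb (W c) (Y e d) p * dP (W c) (M e d) p := by
        rw [Finset.sum_comm]
        refine Finset.sum_congr rfl fun d _ => ?_
        rw [← hTsum c d, Finset.mul_sum]
        refine Finset.sum_congr rfl fun e _ => ?_
        rw [hdPbY]
        ring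
      rw [h2, h3, ← Finset.sum_add_distrib, ← Finset.sum_add_distrib, ← Finset.sum_add_distrib]
      refine Finset.sum_congr rfl fun e _ => ?_
      rw [Lc_sum _ hU' (fun d _ => hYMs e d) hp', ← Finset.sum_add_distrib,
        ← Finset.sum_add_distrib, ← Finset.sum_add_distrib]
      refine Finset.sum_congr rfl fun d _ => ?_
      rw [Lc_mul hU' (hYs e d) (hMs e d) hp', hLY]
      ring
    have h4 : (∑ e, A c e * (starRingEnd ℂ) (T c e)) =
        (starRingEnd ℂ) (∑ d, (starRingEnd ℂ) (A c d) * T c d) := by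
      rw [map_sum]
      refine Finset.sum_congr rfl fun e _ => ?_
      rw [map_mul, Complex.conj_conj]
    rw [h1, h4, Complex.add_re, Complex.add_re, Complex.add_re, Complex.conj_re, hLvv', Complex.re_sum,
      Complex.re_sum, Finset.sum_add_distrib, ← Finset.mul_sum]
    have h5 : ∀ d, (A c d * (starRingEnd ℂ) (A c d)).re = Complex.normSq (A c d) := by
      intro d
      rw [Complex.mul_conj, Complex.ofReal_re]
    simp_rw [h5]
    ring
  -- the time derivative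
  have hdtF : dt (fun q => lev φ (ξ q.2) q) p = dt (lev φ v) p := by
    have h1 : Dc (1, 0) Fc p = Dc (1, 0) (hf φ v v) p := by
      rw [Dc_congr hU hvv _ hp, hFc, Dc_sum _ fun e _ => DifferentiableAt.fun_sum fun d _ => hYMd e d,
        Dc_sum _ fun e _ => DifferentiableAt.fun_sum fun d _ => hcMd e d]
      refine Finset.sum_congr rfl fun e _ => ?_
      rw [Dc_sum _ fun d _ => hYMd e d, Dc_sum _ fun d _ => hcMd e d]
      refine Finset.sum_congr rfl fun d _ => ?_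
      rw [Dc_mul (hYd e d) (hMd e d), Dc_const_mul _ (hMd e d)]
      have h2 : Dc (1, 0) (Y e d) p = 0 := by
        rw [hY]
        rw [Dc_mul (hxd e) (hxc d), Dc_conj (hxd d), hxt, hxt]
        simp
      rw [h2]
      ring
    rw [dt, D_congr hU' hF_eq _ hp', Dc_re (diffAt_of_contDiffOn' hU' hFcs hp'), h1,
      ← Dc_re (diffAt_of_contDiffOn' hU (contDiffOn_hf hU hφ v v) hp)]
    rfl
  rw [dt_lev hU hφ hpos flow_re flow_im hp v, lev_logdet hU hφ hpos hp hW (uframe_det hU hφ hp hW),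
    ← sum_normSq_T hU hφ hp] at hdtF
  -- assembly
  have hF0 : 0 < lev φ v p := lev_pos hU hφ hp (hpos p hp) hne
  have hsF : ContDiffOn ℝ ∞ (fun q => lev φ (ξ q.2) q) U' := by
    have : ContDiffOn ℝ ∞ (fun q => (Fc q).re) U' := Complex.reCLM.contDiff.comp_contDiffOn hFcs
    exact this.congr hF_eq
  have hF2 : ContDiffAt ℝ 2 (fun q => lev φ (ξ q.2) q) p :=
    (hsF.contDiffAt (hU'.mem_nhds hp')).of_le (WithTop.coe_le_coe.2 le_top)
  have h1 : dt (fun q => Real.log (lev φ (ξ q.2) q)) p =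
      dt (fun q => lev φ (ξ q.2) q) p / lev φ v p :=
    LC.D_log _ (hF2.differentiableAt (by norm_num)) hF0.ne'
  have hlevF : ∀ c, lev (fun q => lev φ (ξ q.2) q) (W c) p = (Lc (W c) Fc p).re := by
    intro c
    rw [← lev_re hU' hFcs hp']
    have e : ∀ b : ℝ × Cn n, D b (D b (fun q => lev φ (ξ q.2) q)) p =
        D b (D b (fun q => (Fc q).re)) p := fun b =>
      D_congr hU' (D_congr hU' hF_eq b) b hp'
    rw [lev, lev, e, e]
  have hgr : ∀ c, ((D (0, W c) (fun q => lev φ (ξ q.2) q) p) ^ 2 +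
      (D (0, J (W c)) (fun q => lev φ (ξ q.2) q) p) ^ 2) / 4 = Complex.normSq (dP (W c) Fc p) := by
    intro c
    have h2 : ∀ b : ℝ × Cn n, Dc b Fc p = ⟨D b (fun q => lev φ (ξ q.2) q) p, 0⟩ := by
      intro b
      apply Complex.ext
      · rw [D_congr hU' hF_eq b hp', Dc_re (diffAt_of_contDiffOn' hU' hFcs hp')]
      · rw [← Dc_im (diffAt_of_contDiffOn' hU' hFcs hp'), D_congr hU' hFim b hp', D_const]
    rw [dP, h2, h2, Complex.normSq_div]
    simp [Complex.normSq_apply]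
    ring
  have h2 : ∀ c, lev (fun q => Real.log (lev φ (ξ q.2) q)) (W c) p =
      lev (fun q => lev φ (ξ q.2) q) (W c) p / lev φ v p -
        Complex.normSq (dP (W c) Fc p) / (lev φ v p) ^ 2 := by
    intro c
    have e : ∀ (f : ℝ × Cn n → ℝ), lev f (W c) p =
        (D (0, W c) (D (0, W c) f) p + D (0, J (W c)) (D (0, J (W c)) f) p) / 4 := fun f => rfl
    rw [← hgr, e, e, LC.D_D_log _ _ hF2 hF0.ne', LC.D_D_log _ _ hF2 hF0.ne']
    change _ = _ - _
    rw [← hv]
    field_simp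
    ring
  have hFa : lev φ v p = ∑ d, Complex.normSq (a d) := by
    have h3 := congrArg Complex.re (hvv hp)
    beta_reduce at h3
    rw [hite fun e d => Y e d p, Complex.re_sum] at h3
    have h4 : (hf φ v v p).re = lev φ v p := rfl
    rw [← h4, h3]
    refine Finset.sum_congr rfl fun d _ => ?_
    rw [hYp, Complex.mul_conj, Complex.ofReal_re]
  have hcs : ∀ c, Complex.normSq (dP (W c) Fc p) ≤
      lev φ v p * ∑ d, Complex.normSq (T c d + A c d) := by
    intro c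
    rw [hgrad, hFa]
    have h3 : ‖∑ d, (starRingEnd ℂ) (a d) * (T c d + A c d)‖ ≤ ∑ d, ‖a d‖ * ‖T c d + A c d‖ := by
      refine (norm_sum_le _ _).trans (le_of_eq ?_)
      refine Finset.sum_congr rfl fun d _ => ?_
      rw [norm_mul, RCLike.norm_conj]
    have h4 := Finset.sum_mul_sq_le_sq_mul_sq Finset.univ (fun d => ‖a d‖)
      (fun d => ‖T c d + A c d‖)
    rw [Complex.normSq_eq_norm_sq]
    simp_rw [Complex.normSq_eq_norm_sq]
    exact (pow_le_pow_left₀ (norm_nonneg _) h3 2).trans h4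
  have hTA : ∀ c d, Complex.normSq (T c d + A c d) = Complex.normSq (T c d) +
      (Complex.normSq (A c d) + 2 * ((starRingEnd ℂ) (A c d) * T c d).re) := by
    intro c d
    rw [Complex.normSq_add, mul_comm (T c d)]
    ring
  have hsum : ∑ c, Complex.normSq (dP (W c) Fc p) ≤ lev φ v p *
      ((∑ c, ∑ d, Complex.normSq (T c d)) +
        ∑ c, ∑ d, (Complex.normSq (A c d) + 2 * ((starRingEnd ℂ) (A c d) * T c d).re)) := by
    rw [← Finset.sum_add_distrib, Finset.mul_sum]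
    refine Finset.sum_le_sum fun c _ => (hcs c).trans (le_of_eq ?_)
    rw [← Finset.sum_add_distrib]
    congr 1
    exact Finset.sum_congr rfl fun d _ => hTA c d
  rw [h1, hdtF]
  simp_rw [h2, hlevF, hLap]
  rw [Finset.sum_sub_distrib, ← Finset.sum_div, ← Finset.sum_div, Finset.sum_add_distrib]
  set X := ∑ c, Complex.normSq (dP (W c) Fc p)
  set F := lev φ v p
  set Q := ∑ c, ∑ d, Complex.normSq (T c d)
  set R := ∑ c, ∑ d, (Complex.normSq (A c d) + 2 * ((starRingEnd ℂ) (A c d) * T c d).re)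
  set S := ∑ c, lev (lev φ v) (W c) p
  have h3 : X / F ^ 2 ≤ (Q + R) / F := by
    rw [div_le_div_iff₀ (by positivity) hF0]
    nlinarith
  have e1 : (S - Q) / F = (S + R) / F - (Q + R) / F := by ring
  rw [e1]
  linarith

/-- The coefficient functions of a field in a frame. -/
noncomputable def coeff (W : Fin n → Cn n) (ξ : Cn n → Cn n) (d : Fin n) (q : ℝ × Cn n) : ℂ :=
  ∑ k, cc (ξ q.2) k * ((Matrix.of fun c k => cc (W c) k)⁻¹ : Matrix (Fin n) (Fin n) ℂ) k d

/-- `cc` as a continuous linear map -/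
noncomputable def ccL (n : ℕ) (k : Fin n) : Cn n →L[ℝ] ℂ :=
  (Complex.ofRealCLM.comp ((ContinuousLinearMap.proj k).comp (ContinuousLinearMap.fst ℝ _ _))) +
    Complex.I • (Complex.ofRealCLM.comp
      ((ContinuousLinearMap.proj k).comp (ContinuousLinearMap.snd ℝ _ _)))

theorem ccL_apply (k : Fin n) (u : Cn n) : ccL n k u = cc u k := by
  apply Complex.ext <;> simp [ccL, cc]

/-- **The evolution inequality for holomorphic vector fields.** -/
theorem evol_holo (hU : IsOpen U) (hφ : ContDiffOn ℝ ∞ φ U) (hpos : ∀ p ∈ U, (cHess φ p).PosDef)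
    (flow_re : ∀ p ∈ U, ∀ k l, dt (fun q => (cHess φ q k l).re) p =
      (cHess (fun q => Real.log (cHess φ q).det.re) p k l).re)
    (flow_im : ∀ p ∈ U, ∀ k l, dt (fun q => (cHess φ q k l).im) p =
      (cHess (fun q => Real.log (cHess φ q).det.re) p k l).im) (hp : p ∈ U)
    (hW : IsUFrame φ p W) {ξ : Cn n → Cn n} {V : Set (Cn n)} (hV : IsOpen V) (hpV : p.2 ∈ V)
    (hξ : ContDiffOn ℝ ∞ ξ V)
    (hol : ∀ z ∈ V, ∀ u : Cn n, fderiv ℝ ξ z (J u) = J (fderiv ℝ ξ z u)) (hne : ξ p.2 ≠ 0) :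
    dt (fun q => Real.log (lev φ (ξ q.2) q)) p ≤
        ∑ c, lev (fun q => Real.log (lev φ (ξ q.2) q)) (W c) p := by
  set U' : Set (ℝ × Cn n) := U ∩ Prod.snd ⁻¹' V with hU'def
  have hU' : IsOpen U' := hU.inter (hV.preimage continuous_snd)
  have hmaps : MapsTo (Prod.snd : ℝ × Cn n → Cn n) U' V := fun q hq => hq.2
  set N : Matrix (Fin n) (Fin n) ℂ := Matrix.of fun c k => cc (W c) k with hN
  have hdet : IsUnit N.det := isUnit_iff_ne_zero.2 (uframe_det hU hφ hp hW)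
  have hccs : ∀ k, ContDiffOn ℝ ∞ (fun q : ℝ × Cn n => cc (ξ q.2) k) U' := by
    intro k
    have e : (fun q : ℝ × Cn n => cc (ξ q.2) k) = fun q => ccL n k ((ξ ∘ Prod.snd) q) := by
      funext q
      rw [ccL_apply]
      rfl
    rw [e]
    exact (ccL n k).contDiff.comp_contDiffOn (hξ.comp contDiff_snd.contDiffOn hmaps)
  have hDcc : ∀ k, ∀ q ∈ U', ∀ b : ℝ × Cn n, Dc b (fun q : ℝ × Cn n => cc (ξ q.2) k) q =
      cc (fderiv ℝ ξ q.2 b.2) k := by
    intro k q hq b
    have hd : DifferentiableAt ℝ ξ q.2 :=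
      ((hξ.differentiableOn (by simp)).differentiableAt (hV.mem_nhds hq.2))
    have e : (fun q : ℝ × Cn n => cc (ξ q.2) k) = (ccL n k) ∘ (ξ ∘ Prod.snd) := by
      funext q
      simp [ccL_apply]
    have h1 : HasFDerivAt (fun q : ℝ × Cn n => cc (ξ q.2) k)
        ((ccL n k).comp ((fderiv ℝ ξ q.2).comp (ContinuousLinearMap.snd ℝ ℝ (Cn n)))) q := by
      rw [e]
      exact (ccL n k).hasFDerivAt.comp q (hd.hasFDerivAt.comp q hasFDerivAt_snd)
    rw [Dc, h1.fderiv]
    simp [ccL_apply]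
  have hccd : ∀ k, ∀ q ∈ U', DifferentiableAt ℝ (fun q : ℝ × Cn n => cc (ξ q.2) k) q :=
    fun k q hq => diffAt_of_contDiffOn' hU' (hccs k) hq
  have hxs : ∀ d, ContDiffOn ℝ ∞ (coeff W ξ d) U' := fun d =>
    ContDiffOn.sum fun k _ => (hccs k).mul contDiffOn_const
  have hDx : ∀ d, ∀ q ∈ U', ∀ b : ℝ × Cn n, Dc b (coeff W ξ d) q =
      ∑ k, cc (fderiv ℝ ξ q.2 b.2) k * N⁻¹ k d := by
    intro d q hq b
    have e : coeff W ξ d = fun q => ∑ k, N⁻¹ k d * cc (ξ q.2) k := by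
      funext q
      exact Finset.sum_congr rfl fun k _ => mul_comm _ _
    rw [e, Dc_sum _ fun k _ => (hccd k q hq).const_mul _]
    refine Finset.sum_congr rfl fun k _ => ?_
    rw [Dc_const_mul _ (hccd k q hq), hDcc k q hq, mul_comm]
  refine evol_coeff hU hφ hpos flow_re flow_im hp hW (x := coeff W ξ) hU' inter_subset_left
    ⟨hp, hpV⟩ hxs ?_ ?_ ?_ hne
  · intro d q hq u
    rw [hDx d q hq, hDx d q hq, Finset.mul_sum]
    refine Finset.sum_congr rfl fun k _ => ?_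
    change cc (fderiv ℝ ξ q.2 (J u)) k * _ = _
    rw [hol q.2 hq.2 u, cc_J]
    ring
  · intro d
    rw [hDx d p ⟨hp, hpV⟩]
    refine Finset.sum_eq_zero fun k _ => ?_
    have : cc (fderiv ℝ ξ p.2 ((1, 0) : ℝ × Cn n).2) k = 0 := by
      change cc (fderiv ℝ ξ p.2 0) k = 0
      rw [map_zero]
      rfl
    rw [this, zero_mul]
  · intro q _ k
    have h1 : (Matrix.vecMul (Matrix.vecMul (cc (ξ q.2)) N⁻¹) N) k = cc (ξ q.2) k := by
      rw [Matrix.vecMul_vecMul, Matrix.nonsing_inv_mul _ hdet, Matrix.vecMul_one]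
    rw [← h1]
    rfl

end main

section blueprint

variable {n : ℕ} {ψ : ℝ × Cn n → ℝ} {U : Set (ℝ × Cn n)}

/-- the evolution inequality, potential form of the flow, one frame for all fields -/
theorem evol_field (hU : IsOpen U) (hψ : ContDiffOn ℝ ∞ ψ U) (hpos : ∀ p ∈ U, (cHess ψ p).PosDef)
    (flow : ∀ p ∈ U, dt ψ p = Real.log (cHess ψ p).det.re) {p : ℝ × Cn n} (hp : p ∈ U) :
    ∃ W : Fin n → Cn n, IsUFrame ψ p W ∧ ∀ (ξ : Cn n → Cn n) (S : Set (Cn n)), IsOpen S →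
      p.2 ∈ S → Pool.Agent.KRFS.HolOn ξ S → ξ p.2 ≠ 0 →
      dt (fun q => Real.log (lev ψ (ξ q.2) q)) p ≤
        ∑ c, lev (fun q => Real.log (lev ψ (ξ q.2) q)) (W c) p := by
  obtain ⟨h1, h2⟩ := flow_of_potential_on hU hψ flow
  obtain ⟨W, hW, -⟩ := exists_uframe hU hψ hp (hpos p hp)
  exact ⟨W, hW, fun ξ S hS hpS hξ hne =>
    evol_holo hU hψ hpos h1 h2 hp hW hS hpS hξ.1 hξ.2 hne⟩

/-- the evolution inequality in a given frame -/
theorem evol_field_frame (hU : IsOpen U) (hψ : ContDiffOn ℝ ∞ ψ U)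
    (hpos : ∀ p ∈ U, (cHess ψ p).PosDef)
    (flow : ∀ p ∈ U, dt ψ p = Real.log (cHess ψ p).det.re) {p : ℝ × Cn n} (hp : p ∈ U)
    {W : Fin n → Cn n} (hW : IsUFrame ψ p W) {ξ : Cn n → Cn n} {S : Set (Cn n)} (hS : IsOpen S)
    (hpS : p.2 ∈ S) (hξ : Pool.Agent.KRFS.HolOn ξ S) (hne : ξ p.2 ≠ 0) :
    dt (fun q => Real.log (lev ψ (ξ q.2) q)) p ≤
      ∑ c, lev (fun q => Real.log (lev ψ (ξ q.2) q)) (W c) p := by
  obtain ⟨h1, h2⟩ := flow_of_potential_on hU hψ flow
  exact evol_holo hU hψ hpos h1 h2 hp hW hS hpS hξ.1 hξ.2 hne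

theorem trace_frame (_hU : IsOpen U) (_hψ : ContDiffOn ℝ ∞ ψ U) {p : ℝ × Cn n} (_hp : p ∈ U)
    {W : Fin n → Cn n} (hW : IsUFrame ψ p W) : ∑ c, lev ψ (W c) p = n := sum_lev_uframe hW

/-- `∂_t log det g = Δ log det g` under the flow in potential form -/
theorem evol_logdet (hU : IsOpen U) (hψ : ContDiffOn ℝ ∞ ψ U) (hpos : ∀ p ∈ U, (cHess ψ p).PosDef)
    (flow : ∀ p ∈ U, dt ψ p = Real.log (cHess ψ p).det.re) {p : ℝ × Cn n} (hp : p ∈ U)
    {W : Fin n → Cn n} (hW : IsUFrame ψ p W) :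
    dt (fun q => Real.log (cHess ψ q).det.re) p =
      ∑ c, lev (fun q => Real.log (cHess ψ q).det.re) (W c) p := by
  obtain ⟨h1, h2⟩ := flow_of_potential_on hU hψ flow
  exact dt_logdet_eq hU hψ hpos h1 h2 hp hW

theorem flow_of_potential (hU : IsOpen U) (hψ : ContDiffOn ℝ ∞ ψ U)
    (flow : ∀ p ∈ U, dt ψ p = Real.log (cHess ψ p).det.re) {p : ℝ × Cn n} (hp : p ∈ U)
    (k l : Fin n) :
    dt (fun q => (cHess ψ q k l).re) p =
      (cHess (fun q => Real.log (cHess ψ q).det.re) p k l).re ∧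
    dt (fun q => (cHess ψ q k l).im) p =
      (cHess (fun q => Real.log (cHess ψ q).det.re) p k l).im := by
  obtain ⟨h1, h2⟩ := flow_of_potential_on hU hψ flow
  exact ⟨h1 p hp k l, h2 p hp k l⟩

end blueprint

end Pool.Agent.ToricKRF.G
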